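import Pool.Agent.FRJ.F9JM
import Pool.Agent.FRB.X4M

/-!
# Kummer extensions of hypersurfaces in characteristic two
-/

set_option autoImplicit false

namespace Pool.Agent.FRJ

open Polynomial Pool.Agent.TBR Pool.Agent.TUQ Pool.Agent.UQ Pool.Agent.WLD Pool.Agent.ADT
  Pool.Agent.ADH Pool.Agent.FRB

universe u

section

variable {k M : Type u} [Field k] [Field M] [Algebra k M]

/-- the threefold `U ^ 2 - U = Z ^ e v ^ e` of `FamM` with `Y = 0` -/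
theorem emt_cyclicJ [IsAlgClosed M] [CharP k 2]
    (K₀ : IntermediateField k M) (hfg : K₀.FG) (htd : Algebra.trdeg k M = 2)
    (hal : ∀ x : M, IsAlgebraic K₀ x) (e : ℕ) (he : 2 ≤ e) (hek : (e : k) ≠ 0)
    (hμ : ∀ ζ : M, ζ ^ e = 1 → ζ ∈ K₀) (Z : M) (ZK : Z ^ e ∈ K₀)
    (Z0 : Z ≠ 0) (irrZ : Irreducible (X ^ e - C (⟨Z ^ e, ZK⟩ : K₀))) (h : FamM K₀ 0 Z 2 e)
    (h1 : Emt K₀) : Emt (KZ K₀ Z) := by
  have h2 : CharP M 2 := charP_of_injective_algebraMap (algebraMap k M).injective 2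
  have hpf : Fact (Nat.Prime 2) := ⟨Nat.prime_two⟩
  have YK : (0 : M) ^ 2 - 0 ∈ K₀ := by
    rw [zero_pow two_ne_zero, sub_zero]
    exact zero_mem K₀
  obtain ⟨L, i1, i2, i3, i4, v, w, hv, hw, hgen⟩ := exists_threefoldM (k := k) 2 le_rfl e
    (⟨Z ^ e, ZK⟩ : K₀) ⟨(0 : M) ^ 2 - 0, YK⟩
  have hL : Uniruled k L := uniruled_famM 2 K₀ htd hal e he 0 Z YK ZK Z0 L v w hv hw hgen h
  have hL2 : CharP L 2 := charP_of_injective_algebraMap (algebraMap k L).injective 2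
  have hw' : w ^ 2 - w = algebraMap K₀ L ⟨Z ^ e, ZK⟩ * v ^ e := by
    have h3 : (⟨(0 : M) ^ 2 - 0, YK⟩ : K₀) = 0 := Subtype.ext (by
      show (0 : M) ^ 2 - 0 = 0
      rw [zero_pow two_ne_zero, sub_zero])
    rw [h3, map_zero] at hw
    have h4 : w ^ 2 - w = -(algebraMap K₀ L ⟨Z ^ e, ZK⟩ * v ^ e) := by linear_combination hw
    rw [h4]
    exact CharTwo.neg_eq _
  obtain ⟨n, L', h4, h5⟩ := finalJ K₀ hfg htd hal e inferInstance he hek hμ Z ZK Z0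
    irrZ L v w hv hw' hgen hL
  refine emt_of_inj (K' := KZ K₀ Z) (fun ℓ _ => ⟨MonoidHom.id _, Function.injective_id⟩) L' h5
    fun j => ?_
  rcases (h4 j).1 with h6 | h6
  · exact emt_two h6 (h4 j).2
  · rw [h6]
    exact h1

end

end Pool.Agent.FRJ
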