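import Pool.Agent.ADH.CasesX
import Pool.Agent.FRB.I2
import Pool.Agent.FRB.TK
import Pool.Agent.FRJ.XJ

/-!
# The cases of the theorem on Artin-Schreier quotients, with a Kummer element
-/

set_option autoImplicit false

namespace Pool.Agent.FRJ

open Polynomial Pool.Agent.TBR Pool.Agent.TUQ Pool.Agent.UQ Pool.Agent.WLD Pool.Agent.ADT
  Pool.Agent.ADH Pool.Agent.FRB

universe u

section

variable {k M : Type u} [Field k] [Field M] [Algebra k M]

/-- Case (iii): `K₀ = k(x₀, x₁, x₂)`, `g(x) = 0` for a nonzero polynomial `g`, and `S` consists of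
solutions of `φ(z') = f(x) / G(x)` as in case (ii) and of a solution `z` of `z ^ e = H(x)`, `H` a
polynomial over `k` such that `X ^ e - H(x)` is irreducible over `k^a K₀`. For some weights `ω` of the
`x_i` the degrees are restricted by `wt f ≤ D`, `wt G < D`, `wt G₂ + wt H ≤ D` and
`(1 - 1 / e - 1 / p) D + wt G₁ / p + (wt G₂ + wt H) / e ≤ wt x₀ + wt x₁ + wt x₂ - wt g`. -/
def CaseK (p : ℕ) (K₀ : IntermediateField k M) (S : Finset M) (e : ℕ) : Prop :=
  ∃ (x : Fin 3 → M) (g G G₁ Q₁ G₂ Q₂ H : MvPolynomial (Fin 3) k) (ω : Fin 3 → ℕ) (D : ℕ)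
    (S₁ : Finset M) (z : M) (zK : z ^ e ∈ algebraicClosure k M ⊔ K₀),
    K₀ = IntermediateField.adjoin k (Set.range x) ∧ g ≠ 0 ∧ MvPolynomial.aeval x g = 0 ∧
      G = G₁ * Q₁ ^ p ∧ G = G₂ * Q₂ ^ e ∧ MvPolynomial.aeval x G ≠ 0 ∧
      MvPolynomial.weightedTotalDegree ω G < D ∧
      MvPolynomial.weightedTotalDegree ω G₂ + MvPolynomial.weightedTotalDegree ω H ≤ D ∧
      e * p * (MvPolynomial.weightedTotalDegree ω g + D) +
          e * MvPolynomial.weightedTotalDegree ω G₁ +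
          p * (MvPolynomial.weightedTotalDegree ω G₂ + MvPolynomial.weightedTotalDegree ω H) ≤
        e * p * (ω 0 + ω 1 + ω 2) + (e + p) * D ∧
      (S : Set M) = insert z (S₁ : Set M) ∧ z ^ e = MvPolynomial.aeval x H ∧
      Irreducible (X ^ e - C (⟨z ^ e, zK⟩ : (algebraicClosure k M ⊔ K₀ : IntermediateField k M))) ∧
      ∀ z' ∈ S₁, ∃ (φ : k[X]) (f : MvPolynomial (Fin 3) k), AddPoly φ ∧ derivative φ ≠ 0 ∧
        MvPolynomial.weightedTotalDegree ω f ≤ D ∧
          aeval z' φ * MvPolynomial.aeval x G = MvPolynomial.aeval x f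

/-- the numbers in the case of odd `p` -/
theorem num_odd {e p d D s τ₁ τ₂ η : ℕ} (he : 2 ≤ e) (hp : 3 ≤ p) (hD : 0 < D)
    (h1 : τ₂ + η ≤ D)
    (h2 : e * p * (d + D) + e * τ₁ + p * (τ₂ + η) ≤ e * p * s + (e + p) * D) :
    2 * d + η < 2 * s := by
  by_contra hcon
  push Not at hcon
  obtain ⟨E, rfl⟩ : ∃ E, e = E + 2 := ⟨e - 2, by omega⟩
  obtain ⟨P, rfl⟩ : ∃ P, p = P + 3 := ⟨p - 3, by omega⟩
  obtain ⟨δ, hδ⟩ : ∃ δ, D = η + δ := ⟨D - η, by omega⟩
  have h3 := Nat.mul_le_mul_left ((E + 2) * (P + 3)) hcon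
  have h4 : (E + 2) * (P + 1) * η + 2 * (E * P + 2 * E + P + 1) * δ ≤ 0 := by
    subst hδ
    nlinarith [Nat.zero_le ((E + 2) * τ₁), Nat.zero_le ((P + 3) * τ₂)]
  have h5 : 0 < (E + 2) * (P + 1) * η + 2 * (E * P + 2 * E + P + 1) * δ := by
    rcases Nat.eq_zero_or_pos η with h6 | h6
    · have h7 : 0 < δ := by omega
      have h8 : 0 < 2 * (E * P + 2 * E + P + 1) * δ := Nat.mul_pos (by positivity) h7
      omega
    · have h8 : 0 < (E + 2) * (P + 1) * η := Nat.mul_pos (by positivity) h6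
      omega
  omega

/-- the family `FamM` from polynomials over `k` and a polynomial `f` over `E` -/
theorem famM_map (p : ℕ) [Fact p.Prime] [CharP k p] (E : IntermediateField k M) (hEfg : E.FG)
    (hEtd : Algebra.trdeg k E = 0) (x : Fin 3 → M) (K₀ : IntermediateField k M)
    (hK₀ : K₀ = E ⊔ IntermediateField.adjoin k (Set.range x))
    (g G₁ Q₁ G₂ Q₂ H : MvPolynomial (Fin 3) k) (hg0 : g ≠ 0) (hg : MvPolynomial.aeval x g = 0)
    (ω : Fin 3 → ℕ) (e α γ τ₁ κ₁ τ₂ η d D : ℕ) (z : M) (hz : z ^ e = MvPolynomial.aeval x H)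
    (hG : G₁ * Q₁ ^ p = G₂ * Q₂ ^ e) (hG0 : MvPolynomial.aeval x (G₁ * Q₁ ^ p) ≠ 0)
    (h0 : MvPolynomial.weightedTotalDegree ω g ≤ d)
    (t1 : MvPolynomial.weightedTotalDegree ω G₁ ≤ τ₁)
    (t2 : MvPolynomial.weightedTotalDegree ω Q₁ ≤ κ₁)
    (t3 : MvPolynomial.weightedTotalDegree ω G₂ ≤ τ₂)
    (t4 : MvPolynomial.weightedTotalDegree ω H ≤ η)
    (h1 : τ₂ + η + e * α ≤ D) (h2 : τ₁ + p * γ ≤ D) (h3 : τ₁ + (p - 1) * κ₁ + γ ≤ D)
    (h4 : τ₁ + p * κ₁ + 1 ≤ D) (h5 : d + D ≤ ω 0 + ω 1 + ω 2 + α + γ) (Y : M)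
    (f : MvPolynomial (Fin 3) E) (hf : MvPolynomial.weightedTotalDegree ω f ≤ D)
    (hfY : (Y ^ p - Y) * MvPolynomial.aeval x (G₁ * Q₁ ^ p) = MvPolynomial.aeval x f) :
    FamM K₀ Y z p e := by
  obtain ⟨q, hqdef⟩ : ∃ q, q = G₁ * Q₁ ^ p := ⟨_, rfl⟩
  have hmap : ∀ P : MvPolynomial (Fin 3) k, MvPolynomial.aeval x (MvPolynomial.map (algebraMap k
      E) P) = MvPolynomial.aeval x P := fun P => MvPolynomial.aeval_map_algebraMap _ x P
  have hmw : ∀ (P : MvPolynomial (Fin 3) k) (n : ℕ), MvPolynomial.weightedTotalDegree ω P ≤ n →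
      MvPolynomial.weightedTotalDegree ω (MvPolynomial.map (algebraMap k E) P) ≤ n := by
    intro P n hP
    rw [wtd_le_iff]
    intro m hm
    exact (wtd_le_iff ω P _).1 hP m (MvPolynomial.support_map_subset _ _ hm)
  have hgE0 : MvPolynomial.map (algebraMap k E) g ≠ 0 := by
    intro h
    exact hg0 (MvPolynomial.map_injective _ (algebraMap k _).injective (by rw [h, map_zero]))
  have hGE : MvPolynomial.map (algebraMap k E) G₁ * MvPolynomial.map (algebraMap k E) Q₁ ^ p =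
      MvPolynomial.map (algebraMap k E) q := by
    rw [hqdef, map_mul, map_pow]
  have hGE' : MvPolynomial.map (algebraMap k E) G₂ * MvPolynomial.map (algebraMap k E) Q₂ ^ e =
      MvPolynomial.map (algebraMap k E) q := by
    rw [hqdef, hG, map_mul, map_pow]
  refine ⟨3, E, x, MvPolynomial.map (algebraMap k _) g, f,
    MvPolynomial.map (algebraMap k _) G₁, MvPolynomial.map (algebraMap k _) Q₁,
    MvPolynomial.map (algebraMap k _) (G₂ * H), MvPolynomial.map (algebraMap k _) Q₂,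
    ω, α, γ, τ₁, κ₁, τ₂ + η, d, D, hEfg, hK₀, ?_, hgE0, (hmap g).trans hg, ?_, ?_, ?_, hmw _ _ h0,
    hf, hmw _ _ t1, hmw _ _ t2, hmw _ _ (wle_mul _ _ _ _ _ t3 t4), h1, h2, h3, h4, ?_⟩
  · rw [hEtd]
    norm_num
  · rw [hGE, hmap q, hz, map_mul (MvPolynomial.map _), mul_right_comm, hGE', map_mul, hmap q,
      hmap H, mul_comm]
  · rw [hGE, hmap q, hqdef]
    exact hG0
  · rw [hGE, hmap q, hqdef]
    exact hfY
  · rw [Fin.sum_univ_three]
    exact h5

theorem CaseK.emt [IsAlgClosed M] {p : ℕ} [Fact p.Prime] [CharP k p]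
    (htd : Algebra.trdeg k M = 2) {K₀ : IntermediateField k M}
    (hal : ∀ x : M, IsAlgebraic K₀ x) {e : ℕ} (he : 2 ≤ e) (hek : (e : k) ≠ 0) {S : Finset M}
    (h : CaseK p K₀ S e) (F : IntermediateField k M)
    (hF : F ≤ K₀ ⊔ IntermediateField.adjoin k (S : Set M)) (hFal : ∀ x : M, IsAlgebraic F x) :
    Emt F := by
  classical
  obtain ⟨x, g, G, G₁, Q₁, G₂, Q₂, H, ω, D, S₁, z, zK, hK₀, hg0, hg, hG1, hG2, hG, h1, h1',
    h2, hS, hz, irr, h3⟩ := h
  have hp : 2 ≤ p := (Fact.out : p.Prime).two_le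
  have hG0 : G ≠ 0 := by
    rintro rfl
    exact hG (map_zero _)
  have hF' : F ≤ IntermediateField.adjoin k (Set.range x ∪ insert z (S₁ : Set M)) := by
    rw [IntermediateField.adjoin_union, ← hS, ← hK₀]
    exact hF
  have z0 : z ≠ 0 := by
    rintro rfl
    have h7 : (⟨(0 : M) ^ e, zK⟩ : (algebraicClosure k M ⊔ K₀ : IntermediateField k M)) = 0 :=
      Subtype.ext (zero_pow (by omega))
    rw [h7, C_0, sub_zero] at irr
    exact not_irreducible_pow (by omega) irr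
  have hD0 : 0 < D := lt_of_le_of_lt (Nat.zero_le _) h1
  obtain ⟨d, hd⟩ : ∃ d, d = MvPolynomial.weightedTotalDegree ω g := ⟨_, rfl⟩
  obtain ⟨τ₁, ht1⟩ : ∃ d, d = MvPolynomial.weightedTotalDegree ω G₁ := ⟨_, rfl⟩
  obtain ⟨κ₁, hk1⟩ : ∃ d, d = MvPolynomial.weightedTotalDegree ω Q₁ := ⟨_, rfl⟩
  obtain ⟨τ₂, ht2⟩ : ∃ d, d = MvPolynomial.weightedTotalDegree ω G₂ := ⟨_, rfl⟩
  obtain ⟨η, hη⟩ : ∃ d, d = MvPolynomial.weightedTotalDegree ω H := ⟨_, rfl⟩
  have e1 : MvPolynomial.weightedTotalDegree ω G = τ₁ + p * κ₁ := by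
    rw [hG1, KTW.wtd_mul_eq ω (left_ne_zero_of_mul (hG1 ▸ hG0))
      (right_ne_zero_of_mul (hG1 ▸ hG0)), KTW.wtd_pow_eq, ← ht1, ← hk1]
  rw [← hd, ← ht1, ← ht2, ← hη] at h2
  rw [← ht2, ← hη] at h1'
  rw [e1] at h1
  obtain ⟨c, hc⟩ : ∃ c, τ₁ + p * κ₁ + 1 + c = D := ⟨D - (τ₁ + p * κ₁ + 1), by omega⟩
  obtain ⟨a, ha⟩ : ∃ a, τ₂ + η + a = D := ⟨D - (τ₂ + η), by omega⟩
  obtain ⟨b, hb⟩ : ∃ b, τ₁ + b = D := ⟨D - τ₁, by omega⟩
  have halx : ∀ y : M, IsAlgebraic (IntermediateField.adjoin k (Set.range x)) y := by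
    rw [← hK₀]
    exact hal
  have n1 : e * p * τ₂ + e * p * η + e * (p * a) ≤ e * p * D := le_of_eq (by rw [← ha]; ring)
  have n2 : e * p * τ₁ + p * (e * b) ≤ e * p * D := le_of_eq (by rw [← hb]; ring)
  have n3 : e * p * τ₁ + (p - 1) * (e * p * κ₁) + e * b ≤ e * p * D := by
    obtain ⟨r, hr⟩ : ∃ r, p = r + 1 := ⟨p - 1, by omega⟩
    have hb' : b = p * κ₁ + 1 + c := by omega
    have h5 : e * p * D = e * p * τ₁ + (p - 1) * (e * p * κ₁) + e * b + e * r * (1 + c) := by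
      rw [← hb, hb', hr, Nat.add_sub_cancel]
      ring
    rw [h5]
    exact Nat.le_add_right _ _
  have n4 : e * p * τ₁ + p * (e * p * κ₁) + 1 ≤ e * p * D := by
    have h5 : 1 ≤ e * p * (1 + c) := Nat.mul_pos (Nat.mul_pos (by omega) (by omega)) (by omega)
    calc e * p * τ₁ + p * (e * p * κ₁) + 1 ≤ e * p * τ₁ + p * (e * p * κ₁) + e * p * (1 + c) :=
          Nat.add_le_add_left h5 _
      _ = e * p * D := by
          rw [← hc]
          ring
  have n5 : e * p * d + e * p * D ≤ e * p * ω 0 + e * p * ω 1 + e * p * ω 2 + p * a + e * b := by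
    have h5 : p * D = p * (τ₂ + η) + p * a := by rw [← ha]; ring
    have h6 : e * D = e * τ₁ + e * b := by rw [← hb]; ring
    linarith
  refine tower_injMμ p htd x halx g G₁ Q₁ G₂ Q₂ H hg0 hg (fun i => e * p * ω i) e (p * a) (e * b)
    (e * p * τ₁) (e * p * κ₁) (e * p * τ₂) (e * p * η) (e * p * d) (e * p * D) he hek z z0 hz
    (hG1.symm.trans hG2) (hG1 ▸ hG) (wtd_scale _ ω g hd.ge) (wtd_scale _ ω G₁ ht1.ge)
    (wtd_scale _ ω Q₁ hk1.ge) (wtd_scale _ ω G₂ ht2.ge) (wtd_scale _ ω H hη.ge) n1 n2 n3 n4 n5 S₁ ?_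
    ?_ ?_ F hF' hFal
  · intro z' hz'
    obtain ⟨φ, f, h7, h8, h9, h10⟩ := h3 z' hz'
    exact ⟨φ, f, h7, h8, wtd_scale _ ω f h9, by rw [← hG1]; exact h10⟩
  · intro C₀ hC₀ zK'
    have hle : IntermediateField.adjoin k (C₀ : Set M) ⊔ IntermediateField.adjoin k (Set.range x) ≤
        algebraicClosure k M ⊔ K₀ := by
      rw [hK₀]
      refine sup_le_sup_right ?_ _
      rw [IntermediateField.adjoin_le_iff]
      exact fun c hc => mem_algebraicClosure_iff.2 (hC₀ c hc)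
    exact irr_descend _ _ hle z e (by omega) zK' irr
  · intro C₀ hC₀ hμC
    obtain ⟨E, hE⟩ : ∃ E, E = IntermediateField.adjoin k (C₀ : Set M) := ⟨_, rfl⟩
    have hEfg : E.FG := by
      rw [hE]
      exact ⟨C₀, rfl⟩
    have hEalg : Algebra.IsAlgebraic k E := by
      rw [hE]
      exact IntermediateField.isAlgebraic_adjoin fun c hc => (hC₀ c hc).isIntegral
    have hEtd : Algebra.trdeg k E = 0 := trdeg_eq_zero_iff.2 hEalg
    have hxfg : (IntermediateField.adjoin k (Set.range x) : IntermediateField k M).FG :=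
      ⟨Finset.univ.image x, by rw [Finset.coe_image, Finset.coe_univ, Set.image_univ]⟩
    obtain ⟨K', hK'⟩ : ∃ K', K' = E ⊔ IntermediateField.adjoin k (Set.range x) := ⟨_, rfl⟩
    have hK'fg : K'.FG := by
      rw [hK']
      exact IntermediateField.fg_sup hEfg hxfg
    have hxK' : IntermediateField.adjoin k (Set.range x) ≤ K' := by
      rw [hK']
      exact le_sup_right
    have hK'al : ∀ y : M, IsAlgebraic K' y := fun y => alg_le hxK' (halx y)
    have hmap : ∀ P : MvPolynomial (Fin 3) k, MvPolynomial.aeval x (MvPolynomial.map (algebraMap k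
        E) P) = MvPolynomial.aeval x P := fun P => MvPolynomial.aeval_map_algebraMap _ x P
    have hgE0 : MvPolynomial.map (algebraMap k E) g ≠ 0 := by
      intro h
      exact hg0 (MvPolynomial.map_injective _ (algebraMap k _).injective (by rw [h, map_zero]))
    have hmw : ∀ P : MvPolynomial (Fin 3) k, MvPolynomial.weightedTotalDegree ω
        (MvPolynomial.map (algebraMap k E) P) ≤ MvPolynomial.weightedTotalDegree ω P := by
      intro P
      rw [wtd_le_iff]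
      intro m hm
      exact (wtd_le_iff ω P _).1 le_rfl m (MvPolynomial.support_map_subset _ _ hm)
    have zK' : z ^ e ∈ K' := by
      rw [hz, ← hmap H, hK']
      exact aeval_mem_sup _ x _
    have hle : K' ≤ algebraicClosure k M ⊔ K₀ := by
      rw [hK', hK₀, hE]
      refine sup_le_sup_right ?_ _
      rw [IntermediateField.adjoin_le_iff]
      exact fun c hc => mem_algebraicClosure_iff.2 (hC₀ c hc)
    have irr' := irr_descend _ _ hle z e (by omega) zK' irr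
    rw [← hE, ← hK']
    rcases Nat.lt_or_ge 2 p with hp3 | hp2
    · have h2k : (2 : k) ≠ 0 := by
        intro h
        have h8 := (CharP.cast_eq_zero_iff k p 2).1 (by exact_mod_cast h)
        have h9 := Nat.le_of_dvd two_pos h8
        omega
      refine emt_kummer htd E hEfg (r := 3) ?_ x K' hK' hK'al h2k e he hek
        (MvPolynomial.map (algebraMap k E) g) (MvPolynomial.map (algebraMap k E) H) hgE0
        ((hmap g).trans hg) z z0 (hz.trans (hmap H).symm) zK' irr' ω ?_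
      · rw [hEtd]
        norm_num
      · have h8 := num_odd he hp3 hD0 h1' h2
        rw [Fin.sum_univ_three]
        have h9 := hmw g
        have h10 := hmw H
        omega
    · obtain rfl : p = 2 := le_antisymm hp2 hp
      have he2 : e ≠ 2 := by
        rintro rfl
        exact hek (CharP.cast_eq_zero k 2)
      have hμ : ∀ ζ : M, ζ ^ e = 1 → ζ ∈ K' := by
        intro ζ hζ
        rw [hK', hE]
        exact (le_sup_left : IntermediateField.adjoin k (C₀ : Set M) ≤ _)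
          (IntermediateField.subset_adjoin _ _ (hμC ζ hζ))
      have hsp : Emt K' := by
        refine emt_hyper htd E hEfg x (r := 3) ?_ K' hK' hK'al (MvPolynomial.map (algebraMap k E) g)
          hgE0 ((hmap g).trans hg) ω ?_
        · rw [hEtd]
          norm_num
        · rw [Fin.sum_univ_three]
          have h9 := hmw g
          obtain ⟨E', rfl⟩ : ∃ E', e = E' + 3 := ⟨e - 3, by omega⟩
          have h10 : (E' + 3) * 2 * d < (E' + 3) * 2 * (ω 0 + ω 1 + ω 2) := by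
            nlinarith
          have h11 := lt_of_mul_lt_mul_left h10 (Nat.zero_le _)
          omega
      refine emt_cyclicJ K' hK'fg htd hK'al e he hek hμ z zK' z0 irr' ?_ hsp
      refine famM_map 2 E hEfg hEtd x K' hK' g G₁ Q₁ G₂ Q₂ H hg0 hg (fun i => e * 2 * ω i) e
        (2 * a) (e * b) (e * 2 * τ₁) (e * 2 * κ₁) (e * 2 * τ₂) (e * 2 * η) (e * 2 * d) (e * 2 * D)
        z hz (hG1.symm.trans hG2) (hG1 ▸ hG) (wtd_scale _ ω g hd.ge) (wtd_scale _ ω G₁ ht1.ge)
        (wtd_scale _ ω Q₁ hk1.ge) (wtd_scale _ ω G₂ ht2.ge) (wtd_scale _ ω H hη.ge) n1 n2 n3 n4 n5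
        0 0 ?_ ?_
      · rw [MvPolynomial.weightedTotalDegree_zero]
        exact Nat.zero_le _
      · rw [map_zero, zero_pow two_ne_zero, sub_zero, zero_mul]

/-- the theorem without the theorem of Tate -/
theorem cases_homJ [IsAlgClosed M] (p : ℕ) [Fact p.Prime] [CharP k p]
    (htd : Algebra.trdeg k M = 2) (K₀ : IntermediateField k M) (hfg : K₀.FG)
    (hal : ∀ x : M, IsAlgebraic K₀ x) (e : ℕ) (he : 2 ≤ e) (hek : (e : k) ≠ 0) (S : Finset M)
    (h : CaseU K₀ S e ∨ CaseG p K₀ S e ∨ CaseK p K₀ S e) (F : IntermediateField k M)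
    (hF : F ≤ K₀ ⊔ IntermediateField.adjoin k (S : Set M)) (hFal : ∀ x : M, IsAlgebraic F x) :
    ∃ (n : ℕ) (L : Fin n → IntermediateField k M),
      (∀ j, GoodW K₀ (L j) ∧ ∀ x : M, IsAlgebraic (L j) x) ∧
      ∀ ℓ : ℕ, ℓ.Prime → (ℓ : k) ≠ 0 →
        ∃ f : Vl k F M ℓ →* (∀ j, Vl k (L j) M ℓ), Function.Injective f := by
  rcases h with h | h | h
  · exact cases_hom p htd K₀ hfg hal e he hek S (Or.inl h) F hF hFal
  · exact cases_hom p htd K₀ hfg hal e he hek S (Or.inr h) F hF hFal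
  · obtain ⟨n, L, h5, h6⟩ := h.emt htd hal he hek F hF hFal
    exact ⟨n, L, fun j => ⟨Or.inl (h5 j).1, (h5 j).2⟩, h6⟩

end

end Pool.Agent.FRJ
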