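import Pool.Agent.FRB.Defs
import Pool.Agent.WLD.S7

/-!
# Kummer extensions with a uniruled quotient threefold `U ^ p - U = Z ^ e v ^ e`: definitions

The curve `U ^ p - U = a ^ e` with the group of the `e`-th roots of unity; the quotient is the line
with the coordinate `U`, and the correspondences are `U ↦ U ^ q`.
-/

set_option autoImplicit false

namespace Pool.Agent.FRJ

open Polynomial Pool.Agent.TBR Pool.Agent.TUQ Pool.Agent.WLD Pool.Agent.FRB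

universe u

section

variable {k Ω : Type u} [Field k] [Field Ω] [Algebra k Ω]

/-- The situation after the embedding of `L = K₀(v, U)`, `U ^ p - U = Z ^ e v ^ e`, in `H(t)`;
`a = Z v`. -/
structure CfJ (A H : IntermediateField k Ω) (K₀ : IntermediateField k A) (Z : A) (p e n : ℕ)
    (v a U t : Ω) : Prop where
  trA : ∀ x : Ω, x ∉ A → ∀ y : Ω, IsAlgebraic (AA A {x}) y
  trH : ∀ x : Ω, x ∉ H → ∀ y : Ω, IsAlgebraic (AA H {x}) y
  tdA : Algebra.trdeg k A = 2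
  tdH : Algebra.trdeg k H = 2
  fg : K₀.FG
  al : ∀ x : A, IsAlgebraic K₀ x
  pp : p.Prime
  ch : CharP k p
  e2 : 2 ≤ e
  ek : (e : k) ≠ 0
  n0 : 0 < n
  en : e ∣ p ^ n - 1
  ZK : Z ^ e ∈ K₀
  Z0 : Z ≠ 0
  irrZ : Irreducible (X ^ e - C (⟨Z ^ e, ZK⟩ : K₀))
  aA : a ∉ A
  tH : t ∉ H
  K₀t : ∀ x ∈ K₀, (x : Ω) ∈ AA H {t}
  vt : v ∈ AA H {t}
  Ut : U ∈ AA H {t}
  eqU : U ^ p - U = a ^ e
  eqZ : Z * v = a

/-- the data: `U = A₁(t) / A₂(t)`, the roots `T i` of `A₁(X) - U ^ (p ^ n) A₂(X)`,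
automorphisms over `H` which map `t` to `T i` and the embeddings of `A` -/
structure GDJ (A H : IntermediateField k Ω) (K₀ : IntermediateField k A) (Z : A) (p e n : ℕ)
    (v a U t : Ω) (A₁ A₂ : H[X]) {m : ℕ} (T : Fin m → Ω)
    (s : Fin m → (Ω ≃ₐ[k] Ω)) (ξ : Fin m → (A →ₐ[k] Ω)) (f : Polynomial Ω) : Prop where
  cop : IsCoprime A₁ A₂
  A₂0 : A₂ ≠ 0
  A₂t : aeval t A₂ ≠ 0
  yeq : U * aeval t A₂ = aeval t A₁
  f0 : f ≠ 0
  fdef : f = A₁.map (algebraMap H Ω) - C (U ^ (p ^ n)) * A₂.map (algebraMap H Ω)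
  roots : f.roots = Finset.univ.val.map T
  TH : ∀ i, T i ∉ H
  Tt : ∀ i, T i ≠ t
  sH : ∀ i, s i ∈ Fx k (H : Set Ω)
  st : ∀ i, s i t = T i
  sU : ∀ i, s i U = U ^ (p ^ n)
  sv : ∀ i, s i v ≠ 0
  ξK : ∀ i, ∀ x ∈ K₀, ξ i x = s i x
  ξZ : ∀ i, ξ i Z = a ^ (p ^ n) / s i v

open Classical in
/-- the conclusion of block G -/
def GStJ (A : IntermediateField k Ω) (K₀ : IntermediateField k A) (Z : A) (p e n : ℕ)
    (U : Ω) : Prop :=
  ∃ (m : ℕ) (ξ : Fin m → (A →ₐ[k] Ω)) (h : Fin m → Ω), (∀ i, h i ≠ 0) ∧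
    ∀ (V : ValuationSubring Ω) (r : V →+* Ω), Plc A V r →
      (∀ c : A, c ^ p ≠ c → c ^ (p ^ n) = c → V.valuation (U - c) < 1 →
        (∀ i, (∀ x, ξ i x ∈ V) → V.valuation (h i) ≠ 1 → V.valuation (h i) < 1 ∧
          ∀ ψ, ResE A V r (ξ i) ψ → (∀ x ∈ K₀, ψ x = x) ∧
            ψ Z = (c ^ p - c) ^ ((p ^ n - 1) / e) * Z) ∧
        V.valuation (∏ i, if (∀ x, ξ i x ∈ V) ∧ V.valuation (h i) ≠ 1 then h i else 1) =
          V.valuation (U - c)) ∧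
      ((∀ c : A, c ^ p ≠ c → c ^ (p ^ n) = c → ¬ V.valuation (U - c) < 1) →
        LocB A (GoodW K₀) (KZ K₀ Z) ξ h V r)

/-- block G: the geometry of the embeddings -/
def BlockGJ (k Ω : Type u) [Field k] [Field Ω] [Algebra k Ω] : Prop :=
  ∀ (_ : IsAlgClosed Ω) (A H : IntermediateField k Ω) (_ : IsAlgClosed A) (_ : IsAlgClosed H)
    (K₀ : IntermediateField k A) (Z : A) (p e n : ℕ) (v a U t : Ω),
    CfJ A H K₀ Z p e n v a U t → NU (KZ K₀ Z) → GStJ A K₀ Z p e n U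

end

end Pool.Agent.FRJ
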