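import Pool.Agent.FRJ.Defs
import Pool.Agent.FRB.F3M

/-!
# The set-up: a uniruled field in a rational function field (template FRB/F3M)
-/

set_option autoImplicit false

namespace Pool.Agent.FRJ

open Polynomial Pool.Agent.TBR Pool.Agent.TUQ Pool.Agent.WLD Pool.Agent.UQ Pool.Agent.FRB Cardinal

universe u

theorem setupJ {k M : Type u} [Field k] [Field M] [Algebra k M] [IsAlgClosed M]
    (K₀ : IntermediateField k M) (hfg : K₀.FG) (htd : Algebra.trdeg k M = 2)
    (hal : ∀ x : M, IsAlgebraic K₀ x) (p e n : ℕ) (hp : p.Prime) (hch : CharP k p) (he : 2 ≤ e)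
    (hek : (e : k) ≠ 0) (hn : 0 < n) (hen : e ∣ p ^ n - 1) (Z : M)
    (ZK : Z ^ e ∈ K₀) (Z0 : Z ≠ 0)
    (irrZ : Irreducible (X ^ e - C (⟨Z ^ e, ZK⟩ : K₀)))
    (L : Type u) [Field L] [Algebra k L] [Algebra K₀ L] [IsScalarTower k K₀ L] (v U : L)
    (hv : Transcendental K₀ v)
    (hU : U ^ p - U = algebraMap K₀ L ⟨Z ^ e, ZK⟩ * v ^ e)
    (hgen : IntermediateField.adjoin K₀ {v, U} = ⊤) (hL : Uniruled k L) :
    ∃ (Ω : Type u) (_ : Field Ω) (_ : Algebra k Ω) (A H : IntermediateField k Ω) (ε : M ≃ₐ[k] A)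
      (v' a U' t : Ω), IsAlgClosed Ω ∧ IsAlgClosed A ∧ IsAlgClosed H ∧
      CfJ A H (K₀.map (ε : M →ₐ[k] A)) (ε Z) p e n v' a U' t := by
  have hKalg : Algebra.IsAlgebraic K₀ M := ⟨hal⟩
  have htd₀ : Algebra.trdeg k K₀ = 2 := by rw [← trdeg_alg k K₀ M, htd]
  have htL := setup_trLM htd₀ p e hp.two_le v U 0 (-⟨Z ^ e, ZK⟩) hv (by
    rw [hU, map_neg, map_zero]
    ring) hgen
  obtain ⟨M', _, _, hM'fg, hM't, ⟨φ'⟩⟩ := hL
  rw [htL] at hM't
  -- the field `Ω`
  have h0 : Algebra.IsAlgebraic (Polynomial M') (RatFunc M') :=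
    IsLocalization.isAlgebraic (RatFunc M') (nonZeroDivisors (Polynomial M'))
  have hR1 : Algebra.trdeg M' (RatFunc M') = 1 := by
    rw [← _root_.trdeg_add_eq M' (Polynomial M') (A := RatFunc M'),
      _root_.trdeg_eq_zero (R := Polynomial M') (A := RatFunc M'), add_zero,
      Polynomial.trdeg_of_isDomain]
  have hR3 : Algebra.trdeg k (RatFunc M') = 3 := by
    rw [← _root_.trdeg_add_eq k M' (A := RatFunc M'), hR1, hM't]
  have hM'2 : Algebra.trdeg k M' = 2 := by
    have h1 : (2 : Cardinal.{u}) + 1 = 3 := by norm_num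
    rw [← h1] at hM't
    exact (Cardinal.add_one_inj).1 hM't
  let Ω := AlgebraicClosure (RatFunc M')
  have hΩR : Algebra.trdeg k Ω = 3 := by rw [trdeg_alg k (RatFunc M') Ω, hR3]
  let ι : RatFunc M' →ₐ[k] Ω := IsScalarTower.toAlgHom k (RatFunc M') Ω
  let j : L →ₐ[k] Ω := ι.comp φ'
  let j₀ : K₀ →ₐ[k] Ω := j.comp (IsScalarTower.toAlgHom k K₀ L)
  -- the field `H`
  let HM : IntermediateField M' Ω := algebraicClosure M' Ω
  let H : IntermediateField k Ω := HM.restrictScalars k
  have hHcl : IsAlgClosed H := by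
    have h1 : IsAlgClosure M' HM := inferInstance
    exact h1.isAlgClosed
  have hM'H : ∀ x : M', algebraMap M' Ω x ∈ H := fun x => HM.algebraMap_mem x
  have hH2 : Algebra.trdeg k H = 2 := by
    have h1 : Algebra.IsAlgebraic M' HM := algebraicClosure.isAlgebraic M' Ω
    have h2 := trdeg_alg k M' HM
    rw [hM'2] at h2
    exact h2
  let t : Ω := ι RatFunc.X
  have htM' : Transcendental M' t := by
    intro h
    have h1 : IsAlgebraic M' (algebraMap (RatFunc M') Ω RatFunc.X) := h
    rw [isAlgebraic_algebraMap_iff (algebraMap (RatFunc M') Ω).injective] at h1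
    exact RatFunc.transcendental_X h1
  have htH : t ∉ H := fun h => htM' (mem_algebraicClosure_iff.1 h)
  have hRH : ∀ x : RatFunc M', ι x ∈ AA H {t} := by
    intro x
    have hpol : ∀ p : M'[X], ι (algebraMap M'[X] (RatFunc M') p) ∈ AA H {t} := by
      intro p
      induction p using Polynomial.induction_on' with
      | add p q hp hq => rw [map_add, map_add]; exact add_mem hp hq
      | monomial n c =>
        rw [← C_mul_X_pow_eq_monomial, map_mul, map_mul, map_pow, map_pow, RatFunc.algebraMap_C,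
          RatFunc.algebraMap_X]
        refine mul_mem ?_ (pow_mem ?_ n)
        · exact (le_sup_left : H ≤ AA H {t}) (hM'H c)
        · exact (le_sup_right : IntermediateField.adjoin k {t} ≤ AA H {t})
            (IntermediateField.subset_adjoin k _ rfl)
    obtain ⟨p, q, hq, rfl⟩ := IsFractionRing.div_surjective (A := M'[X]) x
    rw [map_div₀]
    exact div_mem (hpol p) (hpol q)
  -- the field `A`
  let _ : Algebra K₀ Ω := j₀.toRingHom.toAlgebra
  have hst : IsScalarTower k K₀ Ω := IsScalarTower.of_algebraMap_eq fun x => (j₀.commutes x).symm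
  let lift : M →ₐ[K₀] Ω := IsAlgClosed.lift
  let i : M →ₐ[k] Ω := lift.restrictScalars k
  have hi : ∀ x : K₀, i x = j (algebraMap K₀ L x) := fun x => lift.commutes x
  let A : IntermediateField k Ω := i.fieldRange
  have hAcl : IsAlgClosed A := range_closed i
  let ε : M ≃ₐ[k] A := AlgEquiv.ofInjectiveField i
  have he' : ∀ x, ((ε x : A) : Ω) = i x := fun x => rfl
  have hA2 : Algebra.trdeg k A = 2 := by rw [← ε.trdeg_eq, htd]
  have htrA : Algebra.trdeg A Ω ≤ 1 := by
    have h1 := _root_.trdeg_add_eq k A (A := Ω)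
    rw [hΩR, hA2] at h1
    refine trdeg_cancel 2 (a := 2) ?_ (by norm_num)
    rw [h1]
    norm_num
  have htrH : Algebra.trdeg H Ω ≤ 1 := by
    have h1 := _root_.trdeg_add_eq k H (A := Ω)
    rw [hΩR, hH2] at h1
    refine trdeg_cancel 2 (a := 2) ?_ (by norm_num)
    rw [h1]
    norm_num
  have hvA : j v ∉ A := by
    rintro ⟨x, hx⟩
    apply hv
    have h1 : IsAlgebraic K₀ (i x) := (hal x).algHom lift
    have hx' : i x = j v := hx
    rw [hx'] at h1
    obtain ⟨p, hp, hp0⟩ := h1
    refine ⟨p, hp, ?_⟩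
    apply j.injective
    rw [map_zero, ← hp0]
    rw [Polynomial.aeval_def, Polynomial.aeval_def, ← AlgHom.coe_toRingHom, Polynomial.hom_eval₂]
    rfl
  have hiZ : i Z ≠ 0 := (map_ne_zero i).2 Z0
  have hiZA : i Z ∈ A := ⟨Z, rfl⟩
  have haA : i Z * j v ∉ A := by
    intro h
    apply hvA
    have h1 := mul_mem (inv_mem hiZA) h
    rwa [← mul_assoc, inv_mul_cancel₀ hiZ, one_mul] at h1
  have hΩp : CharP Ω p := charP_of_injective_algebraMap (algebraMap k Ω).injective p
  have hpf : Fact p.Prime := ⟨hp⟩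
  have hiZe : (i Z) ^ e = j (algebraMap K₀ L ⟨Z ^ e, ZK⟩) := by
    rw [← hi, map_pow]
  have ZK' : (ε Z) ^ e ∈ K₀.map (ε : M →ₐ[k] A) :=
    ⟨Z ^ e, ZK, by
      show ε (Z ^ e) = _
      rw [map_pow]⟩
  refine ⟨Ω, inferInstance, inferInstance, A, H, ε, j v, i Z * j v, j U, t, inferInstance,
    hAcl, hHcl, ?_⟩
  exact
    { trA := fun x hx y => alg_of_trdeg A htrA x hx y
      trH := fun x hx y => alg_of_trdeg H htrH x hx y
      tdA := hA2
      tdH := hH2
      fg := by
        obtain ⟨S, hS⟩ := hfg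
        classical
        refine ⟨S.image ε, ?_⟩
        rw [← hS, IntermediateField.adjoin_map, Finset.coe_image]
        rfl
      al := by
        intro x
        obtain ⟨y, rfl⟩ := ε.surjective x
        obtain ⟨p, hp, hp0⟩ := hal y
        let η : K₀ ≃ₐ[k] K₀.map (ε : M →ₐ[k] A) := K₀.intermediateFieldMap ε
        refine ⟨p.map (η : K₀ →+* K₀.map (ε : M →ₐ[k] A)), ?_, ?_⟩
        · exact (Polynomial.map_ne_zero_iff η.injective).2 hp
        · rw [Polynomial.aeval_def, Polynomial.eval₂_map]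
          have h1 : (algebraMap (K₀.map (ε : M →ₐ[k] A)) A).comp
              (η : K₀ →+* K₀.map (ε : M →ₐ[k] A)) = (ε : M →+* A).comp (algebraMap K₀ M) := by
            ext x
            rfl
          have h2 : ε y = (ε : M →+* A) y := rfl
          rw [h1, h2, ← Polynomial.hom_eval₂, ← Polynomial.aeval_def, hp0, map_zero]
      pp := hp
      ch := hch
      e2 := he
      ek := hek
      n0 := hn
      en := hen
      ZK := ZK'
      Z0 := (map_ne_zero ε).2 Z0
      irrZ := irr_congrZ ε K₀ _ rfl e (Z ^ e) ZK _ (by rw [map_pow]) ZK' irrZ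
      aA := haA
      tH := htH
      K₀t := by
        rintro x ⟨y, hy, rfl⟩
        have h1 : ((((ε : M →ₐ[k] A) y : A)) : Ω) = ι (φ' (algebraMap K₀ L ⟨y, hy⟩)) := by
          show i y = _
          exact hi ⟨y, hy⟩
        show (((ε : M →ₐ[k] A) y : A) : Ω) ∈ _
        rw [h1]
        exact hRH _
      vt := hRH _
      Ut := hRH _
      eqU := by
        show (j U) ^ p - j U = (i Z * j v) ^ e
        have h2 := congrArg j hU
        rw [map_sub, map_mul, map_pow, map_pow, ← hiZe] at h2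
        rw [h2, mul_pow]
      eqZ := rfl }

end Pool.Agent.FRJ
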