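import Pool.Agent.FRJ.F9Jb
import Pool.Agent.FRJ.F3J

set_option maxSynthPendingDepth 3

/-!
# The theorem on Kummer extensions in characteristic two
-/

set_option autoImplicit false

namespace Pool.Agent.FRJ

open Polynomial Pool.Agent.TBR Pool.Agent.TUQ Pool.Agent.WLD Pool.Agent.UQ Pool.Agent.FRB

universe u

/-- **Kummer extensions in characteristic two.** Let `k` be a field of characteristic `2` and `K₀` a
function field of transcendence degree `2` over `k` which contains the `e`-th roots of unity, `e`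
odd. Let `Z ^ e` belong to `K₀`, with an irreducible equation. If the field `K₀(v, U)`,
`U ^ 2 - U = Z ^ e v ^ e`, is uniruled, then `V_ℓ (K₀(Z))` embeds in a product of `V_ℓ`'s of the
fields `K₁ K₂` and `K₀`. -/
theorem finalJ {k M : Type u} [Field k] [Field M] [Algebra k M] [IsAlgClosed M]
    (K₀ : IntermediateField k M) (hfg : K₀.FG) (htd : Algebra.trdeg k M = 2)
    (hal : ∀ x : M, IsAlgebraic K₀ x) (e : ℕ) (hch : CharP k 2) (he : 2 ≤ e)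
    (hek : (e : k) ≠ 0) (hμ : ∀ ζ : M, ζ ^ e = 1 → ζ ∈ K₀) (Z : M)
    (ZK : Z ^ e ∈ K₀) (Z0 : Z ≠ 0)
    (irrZ : Irreducible (X ^ e - C (⟨Z ^ e, ZK⟩ : K₀)))
    (L : Type u) [Field L] [Algebra k L] [Algebra K₀ L] [IsScalarTower k K₀ L] (v U : L)
    (hv : Transcendental K₀ v)
    (hU : U ^ 2 - U = algebraMap K₀ L ⟨Z ^ e, ZK⟩ * v ^ e)
    (hgen : IntermediateField.adjoin K₀ {v, U} = ⊤) (hL : Uniruled k L) :
    ∃ (N : ℕ) (L' : Fin N → IntermediateField k M),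
      (∀ j, GoodW K₀ (L' j) ∧ ∀ x : M, IsAlgebraic (L' j) x) ∧
      ∀ ℓ : ℕ, ℓ.Prime → (ℓ : k) ≠ 0 →
        ∃ f : Vl k (KZ K₀ Z) M ℓ →* (∀ j, Vl k (L' j) M ℓ), Function.Injective f := by
  obtain ⟨K, hKdef⟩ : ∃ K, K = KZ K₀ Z := ⟨_, rfl⟩
  have hK₀K : K₀ ≤ K := by rw [hKdef]; exact le_sup_left
  have hKal : ∀ x : M, IsAlgebraic K x := by
    intro x
    obtain ⟨q, hq, hq0⟩ := hal x
    refine ⟨q.map (IntermediateField.inclusion hK₀K : K₀ →+* K), ?_, ?_⟩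
    · exact (Polynomial.map_ne_zero_iff (RingHom.injective _)).2 hq
    · rw [Polynomial.aeval_def, Polynomial.eval₂_map]
      exact hq0
  have hKfg : K.FG := by
    rw [hKdef]
    exact IntermediateField.fg_sup hfg ⟨{Z}, by rw [Finset.coe_singleton]⟩
  by_cases hNU : NU K
  swap
  · obtain ⟨K₁, K₂, h1, h2, h3, h4, h5, h6⟩ := nu_case K hKfg hKal hNU
    rw [← hKdef]
    refine ⟨1, fun _ => K₁ ⊔ K₂, fun _ => ⟨Or.inl ⟨K₁, K₂, h1, h2, h3, h4, rfl⟩, h5⟩,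
      fun ℓ hℓ _ => ?_⟩
    obtain ⟨f, hf⟩ := h6 ℓ hℓ
    exact @pi_const_aux _ _ _ _ f hf
  -- the field with `2 ^ n` elements
  have hp : Nat.Prime 2 := Nat.prime_two
  have hpe : ¬ 2 ∣ e := fun h => hek ((CharP.cast_eq_zero_iff k 2 e).2 h)
  have hcop : Nat.Coprime 2 e := (Nat.Prime.coprime_iff_not_dvd hp).2 hpe
  have hn : 0 < Nat.totient e := Nat.totient_pos.2 (by omega)
  have hen : e ∣ 2 ^ Nat.totient e - 1 :=
    (Nat.modEq_iff_dvd' (Nat.one_le_pow _ _ hp.pos)).1 (Nat.ModEq.pow_totient hcop).symm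
  obtain ⟨Ω, _, _, A, H, ε, v', a', U', t, hΩ, hA, hH, hc⟩ := setupJ K₀ hfg htd hal 2 e
    (Nat.totient e) hp hch he hek hn hen Z ZK Z0 irrZ L v U hv hU hgen hL
  have hKZ : (KZ K₀ Z).map (ε : M →ₐ[k] A) = KZ (K₀.map (ε : M →ₐ[k] A)) (ε Z) :=
    map_sup_adjoin (ε : M →ₐ[k] A) K₀ Z
  have hNU' : NU (KZ (K₀.map (ε : M →ₐ[k] A)) (ε Z)) := by
    have h1 := hNU.congr ε
    rw [hKdef, hKZ] at h1
    exact h1
  have hμ' : ∀ ζ : A, ζ ^ e = 1 → ζ ∈ K₀.map (ε : M →ₐ[k] A) := by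
    intro ζ hζ
    refine (IntermediateField.mem_map _).2 ⟨ε.symm ζ, hμ _ ?_, ?_⟩
    · rw [← map_pow, hζ, map_one]
    · exact ε.apply_symm_apply ζ
  obtain ⟨N, L₁, hL₁, hf⟩ := coreJ A H (K₀.map (ε : M →ₐ[k] A)) (ε Z) e
    (Nat.totient e) v' a' U' t hc hμ' hNU'
  have hL₁e : ∀ j x, x ∈ L₁ j ↔ ε.symm x ∈ (L₁ j).map (ε.symm : A →ₐ[k] M) := fun j x =>
    mem_map_iff ε.symm (L₁ j) x
  refine ⟨N, fun j => (L₁ j).map (ε.symm : A →ₐ[k] M), fun j => ⟨(hL₁ j).1.congr ε, fun x =>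
    algK ε.symm (L₁ j) _ (hL₁e j) (hL₁ j).2 x⟩, fun ℓ hℓ hℓk => ?_⟩
  obtain ⟨f, hf⟩ := hf ℓ hℓ hℓk
  have hKe : ∀ x : M, x ∈ KZ K₀ Z ↔ ε x ∈ KZ (K₀.map (ε : M →ₐ[k] A)) (ε Z) := by
    intro x
    rw [← hKZ]
    exact mem_map_iff ε _ x
  rw [hKdef] at hKal
  exact @pi_comp_aux _ _ _ _ _ _ _ _ _ (vlH ε _ _ hKe hKal ℓ) (vlH_injective ε _ _ hKe hKal ℓ)
    f hf (fun j => vlH ε.symm (L₁ j) _ (hL₁e j) (hL₁ j).2 ℓ)
    (fun j => vlH_injective ε.symm (L₁ j) _ (hL₁e j) (hL₁ j).2 ℓ)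

end Pool.Agent.FRJ
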