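import Pool.Agent.FRJ.Defs
import Pool.Agent.FRB.F9a

/-!
# The automorphisms over `K₀`
-/

set_option autoImplicit false

namespace Pool.Agent.FRJ

open Polynomial Pool.Agent.TBR Pool.Agent.TUQ Pool.Agent.WLD Pool.Agent.UQ Pool.Agent.FRB

universe u

variable {k M : Type u} [Field k] [Field M] [Algebra k M]

theorem exists_thetaJ [IsAlgClosed M] (K₀ : IntermediateField k M)
    (hal : ∀ x : M, IsAlgebraic K₀ x) (e : ℕ) (Z : M) (ZK : Z ^ e ∈ K₀)
    (irrZ : Irreducible (X ^ e - C (⟨Z ^ e, ZK⟩ : K₀))) (ζ : M) (hζ : ζ ^ e = 1) :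
    ∃ θ : M ≃ₐ[k] M, (∀ x ∈ K₀, θ x = x) ∧ θ Z = ζ * Z := by
  have he : 0 < e := by
    rcases Nat.eq_zero_or_pos e with rfl | h
    · exfalso
      have h1 : (X ^ 0 - C (⟨Z ^ 0, ZK⟩ : K₀)) = 0 := by
        have h2 : (⟨Z ^ 0, ZK⟩ : K₀) = 1 := by
          apply Subtype.ext
          exact pow_zero Z
        rw [h2, pow_zero, map_one, sub_self]
      exact irrZ.ne_zero h1
    · exact h
  have hal' : Algebra.IsAlgebraic K₀ M := ⟨hal⟩
  have hN : Normal K₀ M := by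
    have h1 : IsAlgClosure K₀ M := ⟨inferInstance, inferInstance⟩
    exact IsAlgClosure.normal K₀ M
  have hmZ : minpoly K₀ Z = X ^ e - C (⟨Z ^ e, ZK⟩ : K₀) := by
    symm
    refine minpoly.eq_of_irreducible_of_monic irrZ ?_ (monic_X_pow_sub_C _ he.ne')
    rw [map_sub, map_pow, aeval_X, aeval_C]
    exact sub_self _
  obtain ⟨τ, hτ⟩ := minpoly.exists_algEquiv_of_root' (K := K₀) (x := ζ * Z) (hal Z) (by
    rw [hmZ, map_sub, map_pow, aeval_X, aeval_C, mul_pow, hζ, one_mul]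
    exact sub_self _)
  exact ⟨τ.restrictScalars k, fun x hx => τ.commutes ⟨x, hx⟩, hτ⟩

end Pool.Agent.FRJ
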