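import Mathlib
import Pool.Agent.FRB.NUM

/-!
# The number of solutions of `((c ^ 2 - c) / (c' ^ 2 - c')) ^ ((q - 1) / e) = ζ`
-/

set_option autoImplicit false

namespace Pool.Agent.FRJ

open Finset

/-- the elements which are not in the prime field -/
abbrev Bs (F : Type) [Field F] : Type := {c : F // c ^ 2 ≠ c}

/-- `c ^ 2 - c` -/
def bet {F : Type} [Field F] (c : Bs F) : Fˣ := Units.mk0 ((c : F) ^ 2 - c) (sub_ne_zero.2 c.2)

/-- the number of points of the conic `c ^ 2 - c = u (c' ^ 2 - c')` -/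
theorem conic_card (F : Type) [Field F] [Fintype F] [DecidableEq F] [CharP F 2] (u : F)
    (hu : u ≠ 0) :
    (univ.filter fun q : F × F => q.1 ^ 2 - q.1 = u * (q.2 ^ 2 - q.2)).card =
      Fintype.card F + if u = 1 then Fintype.card F else 0 := by
  classical
  have h2 : (2 : F) = 0 := CharTwo.two_eq_zero
  by_cases hu1 : u = 1
  · subst hu1
    rw [if_pos rfl]
    have h : (univ.filter fun q : F × F => q.1 ^ 2 - q.1 = 1 * (q.2 ^ 2 - q.2)).card =
        (univ : Finset (F ⊕ F)).card := by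
      symm
      refine card_bij (fun s _ => match s with
        | Sum.inl c => (c, c)
        | Sum.inr c => (c + 1, c)) ?_ ?_ ?_
      · rintro (c | c) _
        · rw [mem_filter]
          refine ⟨mem_univ _, ?_⟩
          simp
        · rw [mem_filter]
          refine ⟨mem_univ _, ?_⟩
          show (c + 1) ^ 2 - (c + 1) = 1 * (c ^ 2 - c)
          linear_combination c * h2
      · rintro (a | a) _ (b | b) _ h
        · have h3 : a = b := (Prod.ext_iff.1 h).2
          rw [h3]
        · exfalso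
          have h3 : a = b := (Prod.ext_iff.1 h).2
          have h4 : a = b + 1 := (Prod.ext_iff.1 h).1
          rw [h3] at h4
          exact one_ne_zero (left_eq_add.1 h4)
        · exfalso
          have h3 : a = b := (Prod.ext_iff.1 h).2
          have h4 : a + 1 = b := (Prod.ext_iff.1 h).1
          rw [h3] at h4
          exact one_ne_zero (add_eq_left.1 h4)
        · have h3 : a = b := (Prod.ext_iff.1 h).2
          rw [h3]
      · rintro ⟨c, c'⟩ hq
        rw [mem_filter] at hq
        have h3 : (c - c') * (c - c' - 1) = 0 := by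
          linear_combination hq.2 + (c' ^ 2 - c * c') * h2
        rcases mul_eq_zero.1 h3 with h4 | h4
        · refine ⟨Sum.inl c', mem_univ _, ?_⟩
          show (c', c') = (c, c')
          rw [sub_eq_zero.1 h4]
        · refine ⟨Sum.inr c', mem_univ _, ?_⟩
          show (c' + 1, c') = (c, c')
          rw [Prod.mk.injEq]
          exact ⟨by linear_combination -h4, rfl⟩
    rw [h, card_univ, Fintype.card_sum]
  · rw [if_neg hu1, add_zero]
    obtain ⟨v, hv⟩ : IsSquare u := FiniteField.isSquare_of_char_two (ringChar.eq F 2) u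
    have hv0 : v ≠ 0 := by
      rintro rfl
      exact hu (by rw [hv, mul_zero])
    have hv1 : v ^ 2 + v ≠ 0 := by
      intro h
      have h3 : v * (v + 1) = 0 := by rw [← h]; ring
      rcases mul_eq_zero.1 h3 with h4 | h4
      · exact hv0 h4
      · apply hu1
        have h5 : v = 1 := by linear_combination h4 - h2
        rw [hv, h5, one_mul]
    rw [← card_univ]
    symm
    refine card_bij (fun m _ => (m + v * ((m ^ 2 + m) / (v ^ 2 + v)), (m ^ 2 + m) / (v ^ 2 + v)))
      ?_ ?_ ?_
    · intro m _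
      rw [mem_filter]
      refine ⟨mem_univ _, ?_⟩
      obtain ⟨c', hc'⟩ : ∃ c', c' = (m ^ 2 + m) / (v ^ 2 + v) := ⟨_, rfl⟩
      have h3 : c' * (v ^ 2 + v) = m ^ 2 + m := by rw [hc', div_mul_cancel₀ _ hv1]
      show (m + v * ((m ^ 2 + m) / (v ^ 2 + v))) ^ 2 - (m + v * ((m ^ 2 + m) / (v ^ 2 + v))) =
        u * (((m ^ 2 + m) / (v ^ 2 + v)) ^ 2 - (m ^ 2 + m) / (v ^ 2 + v))
      rw [← hc', hv]
      linear_combination (-1 : F) * h3 + (m * v * c' - m - v * c' + v ^ 2 * c' + m ^ 2 + m) * h2 -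
        (m ^ 2 + m - v * c') * h2
    · intro a _ b _ h
      have h3 := (Prod.ext_iff.1 h).2
      have h4 := (Prod.ext_iff.1 h).1
      have h5 : (a ^ 2 + a) / (v ^ 2 + v) = (b ^ 2 + b) / (v ^ 2 + v) := h3
      have h6 : a + v * ((a ^ 2 + a) / (v ^ 2 + v)) = b + v * ((b ^ 2 + b) / (v ^ 2 + v)) := h4
      rw [h5] at h6
      exact add_right_cancel h6
    · rintro ⟨c, c'⟩ hq
      rw [mem_filter] at hq
      have hq2 : c ^ 2 - c = u * (c' ^ 2 - c') := hq.2
      rw [hv] at hq2
      have h3 : ((c + v * c') ^ 2 + (c + v * c')) / (v ^ 2 + v) = c' := by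
        rw [div_eq_iff hv1]
        linear_combination hq2 + (c + v * c * c' + v ^ 2 * c' ^ 2 - v ^ 2 * c') * h2
      refine ⟨c + v * c', mem_univ _, ?_⟩
      show (c + v * c' + v * (((c + v * c') ^ 2 + (c + v * c')) / (v ^ 2 + v)),
        ((c + v * c') ^ 2 + (c + v * c')) / (v ^ 2 + v)) = (c, c')
      rw [h3, Prod.mk.injEq]
      exact ⟨by linear_combination v * c' * h2, rfl⟩

/-- the number of `(c, c')` with given quotient -/
theorem fib_card (F : Type) [Field F] [Fintype F] [DecidableEq F] [CharP F 2] (u : Fˣ) :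
    ((univ.filter fun q : Bs F × Bs F => bet q.1 / bet q.2 = u).card : ℤ) =
      (Fintype.card F : ℤ) - 4 + if u = 1 then (Fintype.card F : ℤ) else 0 := by
  classical
  have h1 := conic_card F (u : F) u.ne_zero
  have hu : ((u : F) = 1) ↔ u = 1 := by
    rw [← Units.val_one, Units.val_inj]
  -- the solutions in the prime field
  have h4 : ((univ.filter fun q : F × F => q.1 ^ 2 - q.1 = u * (q.2 ^ 2 - q.2)).filter
      fun q => q.2 ^ 2 = q.2).card = 4 := by
    have h5 : ((univ.filter fun q : F × F => q.1 ^ 2 - q.1 = u * (q.2 ^ 2 - q.2)).filter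
        fun q => q.2 ^ 2 = q.2) = ({0, 1} : Finset F) ×ˢ ({0, 1} : Finset F) := by
      ext ⟨c, c'⟩
      rw [mem_filter, mem_filter, mem_product, mem_insert, mem_singleton, mem_insert, mem_singleton]
      have hsq : ∀ x : F, x ^ 2 = x ↔ x = 0 ∨ x = 1 := by
        intro x
        rw [← sub_eq_zero, show x ^ 2 - x = x * (x - 1) by ring, mul_eq_zero, sub_eq_zero]
      constructor
      · rintro ⟨⟨-, h6⟩, h7⟩
        refine ⟨(hsq c).1 ?_, (hsq c').1 h7⟩
        have h8 : c ^ 2 - c = u * (c' ^ 2 - c') := h6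
        have h9 : c' ^ 2 = c' := h7
        rw [h9, sub_self, mul_zero] at h8
        exact sub_eq_zero.1 h8
      · rintro ⟨h6, h7⟩
        have h8 := (hsq c).2 h6
        have h9 := (hsq c').2 h7
        refine ⟨⟨mem_univ _, ?_⟩, h9⟩
        show c ^ 2 - c = u * (c' ^ 2 - c')
        rw [h8, h9, sub_self, sub_self, mul_zero]
    rw [h5, card_product]
    have h6 : ({0, 1} : Finset F).card = 2 := card_pair zero_ne_one
    rw [h6]
  have h5 : (univ.filter fun q : Bs F × Bs F => bet q.1 / bet q.2 = u).card =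
      ((univ.filter fun q : F × F => q.1 ^ 2 - q.1 = u * (q.2 ^ 2 - q.2)).filter
        fun q => ¬ q.2 ^ 2 = q.2).card := by
    refine card_bij (fun q _ => ((q.1 : F), (q.2 : F))) ?_ ?_ ?_
    · rintro ⟨c, c'⟩ hq
      rw [mem_filter] at hq
      rw [mem_filter, mem_filter]
      refine ⟨⟨mem_univ _, ?_⟩, c'.2⟩
      have h6 : bet c = u * bet c' := div_eq_iff_eq_mul.1 hq.2
      have h7 := congrArg (Units.val) h6
      rw [Units.val_mul] at h7
      exact h7
    · rintro ⟨a, a'⟩ _ ⟨b, b'⟩ _ h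
      exact Prod.ext (Subtype.ext (Prod.ext_iff.1 h).1) (Subtype.ext (Prod.ext_iff.1 h).2)
    · rintro ⟨c, c'⟩ hq
      rw [mem_filter, mem_filter] at hq
      have h6 : c ^ 2 - c = u * (c' ^ 2 - c') := hq.1.2
      have h7 : c' ^ 2 ≠ c' := hq.2
      have h8 : c ^ 2 ≠ c := by
        intro h
        rw [h, sub_self] at h6
        rcases mul_eq_zero.1 h6.symm with h9 | h9
        · exact u.ne_zero h9
        · exact h7 (sub_eq_zero.1 h9)
      refine ⟨(⟨c, h8⟩, ⟨c', h7⟩), mem_filter.2 ⟨mem_univ _, ?_⟩, rfl⟩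
      rw [div_eq_iff_eq_mul]
      apply Units.ext
      rw [Units.val_mul]
      exact h6
  have h6 := card_filter_add_card_filter_not (s := univ.filter fun q : F × F =>
    q.1 ^ 2 - q.1 = u * (q.2 ^ 2 - q.2)) (p := fun q => q.2 ^ 2 = q.2)
  rw [h4, ← h5, h1] at h6
  by_cases hu1 : u = 1
  · rw [if_pos (hu.2 hu1)] at h6
    rw [if_pos hu1]
    omega
  · rw [if_neg (fun h => hu1 (hu.1 h))] at h6
    rw [if_neg hu1]
    omega

/-- the count; `|J(χ, χ)| ^ 2 = q` -/
theorem jacobi_count (F : Type) [Field F] [Fintype F] [DecidableEq F] (n e : ℕ)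
    (hn : 0 < n) (hF : Fintype.card F = 2 ^ n) (he : e ∣ 2 ^ n - 1) (ζ : Fˣ) (hζ : ζ ^ e = 1) :
    (((univ : Finset (Bs F × Bs F)).filter fun q =>
      (bet q.1 / bet q.2) ^ ((2 ^ n - 1) / e) = ζ).card : ℤ) =
      (((2 ^ n - 1) / e : ℕ) : ℤ) * ((2 : ℤ) ^ n - 4) + (2 : ℤ) ^ n * (if ζ = 1 then 1 else 0) := by
  classical
  have := Fact.mk Nat.prime_two
  have hch : CharP F 2 := charP_of_card_eq_prime_pow hF
  obtain ⟨d, hd⟩ : ∃ d, d = (2 ^ n - 1) / e := ⟨_, rfl⟩
  rw [← hd]
  have hpw : (univ.filter fun u : Fˣ => u ^ d = ζ).card = d := by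
    have h := FRB.power_card F e (by rw [hF]; exact he) ζ hζ
    rw [hF, ← hd] at h
    exact h
  have hq : (Fintype.card F : ℤ) = 2 ^ n := by
    rw [hF]
    push_cast
    rfl
  have hsum : ((univ : Finset (Bs F × Bs F)).filter fun q =>
      (bet q.1 / bet q.2) ^ d = ζ).card =
      ∑ u ∈ univ.filter (fun u : Fˣ => u ^ d = ζ),
        (univ.filter fun q : Bs F × Bs F => bet q.1 / bet q.2 = u).card := by
    rw [card_eq_sum_card_fiberwise (f := fun q : Bs F × Bs F => bet q.1 / bet q.2)
      (t := univ.filter (fun u : Fˣ => u ^ d = ζ))]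
    · refine sum_congr rfl fun u hu => ?_
      rw [filter_filter]
      congr 1
      refine filter_congr fun q _ => ?_
      constructor
      · exact fun h => h.2
      · intro h
        exact ⟨by rw [h]; exact (mem_filter.1 hu).2, h⟩
    · intro q hq
      rw [mem_coe, mem_filter] at hq
      rw [mem_coe, mem_filter]
      exact ⟨mem_univ _, hq.2⟩
  rw [hsum, Nat.cast_sum, sum_congr rfl fun u _ => fib_card F u, sum_add_distrib, sum_const, hpw,
    nsmul_eq_mul, hq]
  congr 1
  by_cases hz : ζ = 1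
  · rw [if_pos hz, mul_one, sum_eq_single (1 : Fˣ), if_pos rfl]
    · intro b _ hb
      rw [if_neg hb]
    · intro h
      exfalso
      apply h
      rw [mem_filter, one_pow]
      exact ⟨mem_univ _, hz.symm⟩
  · rw [if_neg hz, mul_zero]
    refine sum_eq_zero fun u hu => ?_
    rw [if_neg]
    rintro rfl
    rw [mem_filter, one_pow] at hu
    exact hz hu.2.symm

end Pool.Agent.FRJ
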