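import Pool.Agent.FRJ.S7J
import Pool.Agent.FRJ.NUMJ
import Pool.Agent.FRJ.F9Ja
import Pool.Agent.FRB.RP
import Pool.Agent.FRB.F6M
import Pool.Agent.FRB.F9b
import Pool.Agent.TUQ.F10
import Pool.Agent.WLD.EAI

set_option maxSynthPendingDepth 3

/-!
# The theorem for the embedded fields, characteristic two
-/

set_option autoImplicit false

namespace Pool.Agent.FRJ

open Polynomial Pool.Agent.TBR Pool.Agent.TUQ Pool.Agent.WLD Pool.Agent.UQ Pool.Agent.FRB

universe u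

theorem coreJ {k Ω : Type u} [Field k] [Field Ω] [Algebra k Ω] [hΩ : IsAlgClosed Ω]
    (A H : IntermediateField k Ω) [hA : IsAlgClosed A] [hH : IsAlgClosed H]
    (K₀ : IntermediateField k A) (Z : A) (e n : ℕ) (v a U t : Ω)
    (hc : CfJ A H K₀ Z 2 e n v a U t) (hμ : ∀ ζ : A, ζ ^ e = 1 → ζ ∈ K₀)
    (hNU : NU (KZ K₀ Z)) :
    ∃ (N : ℕ) (L : Fin N → IntermediateField k A),
      (∀ j, GoodW K₀ (L j) ∧ ∀ x : A, IsAlgebraic (L j) x) ∧
      ∀ ℓ : ℕ, ℓ.Prime → (ℓ : k) ≠ 0 →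
        ∃ f : Vl k (KZ K₀ Z) A ℓ →* (∀ j, Vl k (L j) A ℓ), Function.Injective f := by
  classical
  obtain ⟨m, ξ, h, h0, hloc⟩ := blockGJ k Ω hΩ A H hA hH K₀ Z 2 e n v a U t hc hNU
  have hpf : Fact (Nat.Prime 2) := ⟨hc.pp⟩
  have hch := hc.ch
  have hAp : CharP A 2 := charP_of_injective_algebraMap (algebraMap k A).injective 2
  obtain ⟨ι, hι⟩ := exists_fq (M := A) 2 n hc.n0
  let F := GaloisField 2 n
  have hFfin : Finite F := Nat.finite_of_card_ne_zero (by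
    rw [GaloisField.card 2 n hc.n0.ne']
    exact pow_ne_zero _ hc.pp.ne_zero)
  let hFt : Fintype F := Fintype.ofFinite F
  have hcard : Fintype.card F = 2 ^ n := by
    rw [← Nat.card_eq_fintype_card]
    exact GaloisField.card 2 n hc.n0.ne'
  have hFq : ∀ b : F, b ^ (2 ^ n) = b := fun b => by
    rw [← hcard]
    exact FiniteField.pow_card b
  have hFu : ∀ b : Fˣ, b ^ (2 ^ n - 1) = 1 := fun b => by
    have h1 := pow_card_eq_one' (x := b)
    rwa [Nat.card_eq_fintype_card, Fintype.card_units, hcard] at h1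
  have hιpow : ∀ b : F, (ι b) ^ (2 ^ n) = ι b := fun b => by rw [← map_pow, hFq]
  have hee : e * ((2 ^ n - 1) / e) = 2 ^ n - 1 := Nat.mul_div_cancel' hc.en
  have hee' : (2 ^ n - 1) / e * e = 2 ^ n - 1 := Nat.div_mul_cancel hc.en
  have he2 := hc.e2
  -- the indices
  let Γ := {ζ : Fˣ // ζ ^ e = 1}
  have hthe : ∀ g : Γ, ∃ θ : A ≃ₐ[k] A, (∀ x ∈ K₀, θ x = x) ∧ θ Z = ι (g.1 : F) * Z := by
    intro g
    refine exists_thetaJ K₀ hc.al e Z hc.ZK hc.irrZ _ ?_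
    have h1 := congrArg (fun x : Fˣ => (x : F)) g.2
    simp only [Units.val_pow_eq_pow_val, Units.val_one] at h1
    rw [← map_pow, h1, map_one]
  choose θ hθK hθZ using hthe
  let pw : Fˣ → Γ := fun b => ⟨b ^ ((2 ^ n - 1) / e), by rw [← pow_mul, hee', hFu]⟩
  let γ : Bs F → (A ≃ₐ[k] A) := fun b => θ (pw (bet b))
  let g₀ : Γ := ⟨1, one_pow e⟩
  let ρ : Bs F → Bs F → Γ := fun b b' => pw (bet b / bet b')
  have hζK : ∀ ζ : Γ, ι (ζ.1 : F) ∈ K₀ := by
    intro ζ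
    apply hμ
    have h1 := congrArg (fun x : Fˣ => (x : F)) ζ.2
    simp only [Units.val_pow_eq_pow_val, Units.val_one] at h1
    rw [← map_pow, h1, map_one]
  have hg₀ : ∀ x ∈ KZ K₀ Z, θ g₀ x = x := by
    refine ext_z4 (θ g₀ : A →ₐ[k] A) (AlgHom.id k A) (fun x hx => hθK g₀ x hx) ?_
    show θ g₀ Z = Z
    rw [hθZ]
    show ι ((1 : Fˣ) : F) * Z = Z
    rw [Units.val_one, map_one, one_mul]
  have hρ : ∀ b b', ∀ x ∈ KZ K₀ Z, γ b x = γ b' (θ (ρ b b') x) := by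
    intro b b'
    refine ext_z4 (γ b : A →ₐ[k] A) ((γ b' : A →ₐ[k] A).comp (θ (ρ b b') : A →ₐ[k] A)) ?_ ?_
    · intro x hx
      show γ b x = γ b' (θ (ρ b b') x)
      rw [hθK (ρ b b') x hx]
      exact (hθK (pw (bet b)) x hx).trans (hθK (pw (bet b')) x hx).symm
    · show γ b Z = γ b' (θ (ρ b b') Z)
      rw [hθZ (ρ b b'), map_mul]
      have h1 : γ b' (ι ((ρ b b').1 : F)) = ι ((ρ b b').1 : F) := hθK _ _ (hζK (ρ b b'))
      rw [h1]
      show θ (pw (bet b)) Z = ι ((ρ b b').1 : F) * θ (pw (bet b')) Z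
      rw [hθZ, hθZ]
      show ι ((bet b ^ ((2 ^ n - 1) / e) : Fˣ) : F) * Z =
        ι (((bet b / bet b') ^ ((2 ^ n - 1) / e) : Fˣ) : F) *
          (ι ((bet b' ^ ((2 ^ n - 1) / e) : Fˣ) : F) * Z)
      rw [← mul_assoc, ← map_mul, ← Units.val_mul, ← mul_pow, div_mul_cancel]
  -- the action on the embeddings
  have hact : ∀ g ∈ Fx k (K₀ : Set A), ∃ ζ : Γ, g Z = ι (ζ.1 : F) * Z := by
    intro g hg
    have hZ1 : (g Z / Z) ^ e = 1 := by
      have h2 := hg _ hc.ZK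
      rw [map_pow] at h2
      rw [div_pow, h2, div_self (pow_ne_zero _ hc.Z0)]
    obtain ⟨ζ, hζ⟩ := hι (g Z / Z) (by
      have h2 : (g Z / Z) ^ (2 ^ n - 1) = 1 := by rw [← hee, pow_mul, hZ1, one_pow]
      have h1 : 0 < 2 ^ n := by positivity
      have h3 : 2 ^ n = 2 ^ n - 1 + 1 := by omega
      rw [h3, pow_succ, h2, one_mul])
    have hζ0 : ζ ≠ 0 := by
      rintro rfl
      rw [map_zero] at hζ
      rw [← hζ, zero_pow (by omega)] at hZ1
      exact zero_ne_one hZ1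
    refine ⟨⟨Units.mk0 ζ hζ0, ?_⟩, ?_⟩
    · apply Units.ext
      rw [Units.val_pow_eq_pow_val, Units.val_mk0, Units.val_one]
      apply ι.injective
      rw [map_pow, hζ, hZ1, map_one]
    · rw [Units.val_mk0, hζ, div_mul_cancel₀ _ hc.Z0]
  have hactθ : ∀ g ∈ Fx k (K₀ : Set A), ∀ ζ : Γ,
      g Z = ι (ζ.1 : F) * Z → ∃ π : Equiv.Perm Γ,
        ∀ i, ∀ x ∈ KZ K₀ Z, g (θ i x) = θ (π i) x := by
    intro g hg ζ hgZ
    let π₀ : Γ → Γ := fun i => ⟨i.1 * ζ.1, by rw [mul_pow, i.2, ζ.2, one_mul]⟩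
    have hinj : Function.Injective π₀ := by
      intro i j hij
      have h2 : i.1 * ζ.1 = j.1 * ζ.1 := congrArg Subtype.val hij
      exact Subtype.ext (mul_right_cancel h2)
    refine ⟨Equiv.ofBijective π₀ (Finite.injective_iff_bijective.1 hinj), fun i => ?_⟩
    refine ext_z4 ((g : A →ₐ[k] A).comp (θ i : A →ₐ[k] A)) (θ (π₀ i) : A →ₐ[k] A) ?_ ?_
    · intro x hx
      show g (θ i x) = θ (π₀ i) x
      rw [hθK _ x hx, hθK _ x hx]
      exact hg x hx
    · show g (θ i Z) = θ (π₀ i) Z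
      rw [hθZ, hθZ, map_mul, hgZ, hg _ (hζK i)]
      show ι (i.1 : F) * (ι (ζ.1 : F) * Z) = ι ((i.1 * ζ.1 : Fˣ) : F) * Z
      rw [Units.val_mul, map_mul, mul_assoc]
  -- the local statements
  have hlocM : ∀ (V : ValuationSubring Ω) (r : V →+* Ω), Plc A V r →
      LocM A (GoodW K₀) (KZ K₀ Z) ξ h (fun b : Bs F => ((ι (b : F) : A) : Ω)) γ U V r := by
    intro V r hP
    obtain ⟨h1, h2⟩ := hloc V r hP
    refine ⟨fun b hb => ?_, fun hb => h2 fun b hb0 hbq hb' => ?_⟩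
    · have hb0 : ι (b : F) ^ 2 ≠ ι (b : F) := by
        rw [← map_pow]
        exact fun h => b.2 (ι.injective h)
      obtain ⟨h3, h4⟩ := h1 (ι (b : F)) hb0 (hιpow b) hb
      refine ⟨fun i hi hi' => ?_, h4⟩
      obtain ⟨h5, h6⟩ := h3 i hi hi'
      refine ⟨h5, fun ψ hψ => ?_⟩
      obtain ⟨h7, h9⟩ := h6 ψ hψ
      refine ext_z4 (ψ : A →ₐ[k] A) (γ b : A →ₐ[k] A) ?_ ?_
      · intro x hx
        show ψ x = γ b x
        rw [h7 x hx]
        exact (hθK _ x hx).symm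
      · show ψ Z = θ (pw (bet b)) Z
        rw [h9, hθZ]
        show (ι (b : F) ^ 2 - ι (b : F)) ^ ((2 ^ n - 1) / e) * Z =
          ι ((bet b ^ ((2 ^ n - 1) / e) : Fˣ) : F) * Z
        rw [Units.val_pow_eq_pow_val, map_pow, bet, Units.val_mk0, map_sub, map_pow]
    · obtain ⟨b', rfl⟩ := hι b hbq
      have hb'0 : b' ^ 2 ≠ b' := by
        intro h
        apply hb0
        rw [← map_pow, h]
      exact hb ⟨b', hb'0⟩ hb'
  have hfgK : (KZ K₀ Z).FG := IntermediateField.fg_sup hc.fg ⟨{Z}, by rw [Finset.coe_singleton]⟩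
  have hUA : U ∉ A := hc.UA
  have halZ : ∀ x : A, IsAlgebraic (KZ K₀ Z) x := by
    intro x
    obtain ⟨q, hq, hq0⟩ := hc.al x
    have hle : K₀ ≤ KZ K₀ Z := le_sup_left
    refine ⟨q.map (IntermediateField.inclusion hle : _ →+* _), ?_, ?_⟩
    · exact (Polynomial.map_ne_zero_iff (RingHom.injective _)).2 hq
    · rw [Polynomial.aeval_def, Polynomial.eval₂_map]
      exact hq0
  have hιinj : Function.Injective (fun b : Bs F => ι (b : F)) := fun b b' hbb =>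
    Subtype.ext (ι.injective hbb)
  have hne : Nonempty (Bs F) := by
    by_contra hemp
    rw [not_nonempty_iff] at hemp
    have h1 : ∀ b : F, b ^ 2 = b := fun b => by
      by_contra hb
      exact hemp.false ⟨b, hb⟩
    have h2 : ∀ b : Fˣ, b = 1 := fun b => by
      have h3 : ((b : F)) * b = b * 1 := by rw [mul_one, ← sq, h1]
      exact Units.ext (mul_left_cancel₀ b.ne_zero h3)
    have h3 : Fintype.card Fˣ = 1 := Fintype.card_eq_one_iff.2 ⟨1, h2⟩
    rw [Fintype.card_units, hcard] at h3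
    have h4 := Nat.le_of_dvd (by omega) hc.en
    omega
  refine combineM (blockRP k Ω) A (invSt k A) (GoodW K₀) (fun L hL => GoodW.fg hc.fg L hL)
    (KZ K₀ Z) hfgK halZ hc.trA (by rw [hc.tdA]; exact Cardinal.ofNat_lt_aleph0)
    U hUA (fun b : Bs F => ι (b : F)) hιinj γ m ξ h h0 hlocM θ g₀ hg₀ ρ hρ
    (J := Fin 1) ![K₀] ?_ ?_ ![fun _ => 1] ?_
    ![-((((2 ^ n - 1) / e : ℕ) : ℤ) * ((2 : ℤ) ^ n - 4))] ((2 : ℤ) ^ n)
    (pow_ne_zero _ two_ne_zero) ?_
  · intro j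
    fin_cases j
    exact Or.inr rfl
  · intro j
    fin_cases j
    exact hc.al
  · intro j g hg
    have hgK : g ∈ Fx k (K₀ : Set A) := by
      fin_cases j
      exact hg
    obtain ⟨ζ, h2⟩ := hact g hgK
    obtain ⟨π, h4⟩ := hactθ g hgK ζ h2
    refine ⟨π, fun i => ⟨?_, h4 i⟩⟩
    fin_cases j
    rfl
  · intro g
    have h1 := jacobi_count F n e hc.n0 hcard hc.en g.1 g.2
    have h2 : ((Finset.univ : Finset (Bs F × Bs F)).filter fun q => ρ q.1 q.2 = g) =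
        (Finset.univ : Finset (Bs F × Bs F)).filter fun q =>
          (bet q.1 / bet q.2) ^ ((2 ^ n - 1) / e) = g.1 := by
      refine Finset.filter_congr fun q _ => ?_
      constructor
      · rintro rfl
        rfl
      · intro h4
        exact Subtype.ext h4
    rw [h2, h1, Fin.sum_univ_one]
    have h3 : (g = g₀) ↔ g.1 = 1 := by
      constructor
      · rintro rfl
        rfl
      · intro h4
        exact Subtype.ext h4
    show _ + (-((((2 ^ n - 1) / e : ℕ) : ℤ) * ((2 : ℤ) ^ n - 4)) * 1) = _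
    simp only [h3]
    generalize (((2 ^ n - 1) / e : ℕ) : ℤ) = cc
    by_cases h6 : g.1 = 1
    · simp only [if_pos h6]
      ring
    · simp only [if_neg h6]
      ring

end Pool.Agent.FRJ
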