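import Pool.Agent.FRJ.J10b
import Pool.Agent.FRB.M10

/-!
# The local statement at the places which do not contain `H`
-/

set_option autoImplicit false

namespace Pool.Agent.FRJ

open Polynomial Pool.Agent.TBR Pool.Agent.TUQ Pool.Agent.WLD Pool.Agent.FRB

universe u

section

variable {k Ω : Type u} [Field k] [Field Ω] [Algebra k Ω]
variable {A H : IntermediateField k Ω} {V : ValuationSubring Ω} {r : V →+* Ω}
variable {K₀ : IntermediateField k A} {Z : A} {p e n : ℕ} {v a U t : Ω}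
variable {A₁ A₂ : H[X]} {m : ℕ} {T : Fin m → Ω}
  {s : Fin m → (Ω ≃ₐ[k] Ω)} {ξ : Fin m → (A →ₐ[k] Ω)} {f : Polynomial Ω}

/-- `A` is algebraic over `K₀(Z)` -/
theorem alKZ (al : ∀ x : A, IsAlgebraic K₀ x) (x : A) : IsAlgebraic (KZ K₀ Z) x := by
  obtain ⟨q, hq, hq0⟩ := al x
  have hle : K₀ ≤ KZ K₀ Z := le_sup_left
  refine ⟨q.map (IntermediateField.inclusion hle : _ →+* _), ?_, ?_⟩
  · exact (Polynomial.map_ne_zero_iff (RingHom.injective _)).2 hq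
  · rw [Polynomial.aeval_def, Polynomial.eval₂_map]
    exact hq0

theorem locB_of_notMem [IsAlgClosed Ω] [IsAlgClosed H] [IsAlgClosed A]
    (hc : CfJ A H K₀ Z p e n v a U t) (hNU : NU (KZ K₀ Z))
    (hG : GDJ A H K₀ Z p e n v a U t A₁ A₂ T s ξ f) (hP : Plc A V r)
    (hH : ∃ β ∈ H, β ∉ V) :
    LocB A (GoodW K₀) (KZ K₀ Z) ξ (fun i => T i - t) V r := by
  classical
  have hUH := hc.UH hNU
  have htd : Algebra.trdeg k A < Cardinal.aleph0 := by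
    rw [hc.tdA]
    exact Cardinal.ofNat_lt_aleph0
  by_cases hR : ∃ i, (∀ x, ξ i x ∈ V) ∧ V.valuation (T i - t) ≠ 1
  swap
  · refine ⟨K₀, Or.inr rfl, hc.al, fun g _ => ⟨1, fun i => ?_⟩⟩
    exact absurd ⟨i.1, i.2⟩ hR
  obtain ⟨i₀, hi₀, -⟩ := hR
  obtain ⟨α, π, hπ, hgen⟩ := hG.exists_gauss hc hNU hP hH i₀ hi₀
  obtain ⟨α', π', hπ', hV', hη⟩ := hG.a_gauss hc hUH hP hH i₀ α π hπ hgen
  obtain ⟨K₂, hK₂fg, hK₂td, ⟨η, hηK, hηκ⟩, hlift⟩ := hc.toC.exists_K2 hP α' π' hπ' hV' hη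
  have hal := hG.alg_kA hc hP hH i₀ hi₀ K₂ η hηK hηκ
  have hκtd := kA_trdeg hP.res hP.mem H hH hc.tdH
  -- the generators
  obtain ⟨S, hS⟩ : (KZ K₀ Z).FG := IntermediateField.fg_sup hc.fg
    ⟨{Z}, by rw [Finset.coe_singleton]⟩
  let I := {i : Fin m // (∀ x, ξ i x ∈ V) ∧ V.valuation (T i - t) ≠ 1}
  have hψ : ∀ i : I, ∃ ψ, ResE A V r (ξ i) ψ := fun i =>
    exists_resE_F A htd V r hP (ξ i) i.2.1
  choose ψ hψ using hψ
  let N := Fintype.card S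
  let ε : S ≃ Fin N := Fintype.equivFin S
  let y : I → Fin N → A := fun i j => ψ i (ε.symm j)
  let cls : I → (I → Prop) := fun i j => V.valuation (T j - t) = V.valuation (T i - t)
  have hclsi : ∀ i j : I, cls j = cls i → V.valuation (T j - t) = V.valuation (T i - t) := by
    intro i j h
    have h1 : cls j j := rfl
    rw [h] at h1
    exact h1
  have hcls : ∀ i j : I, V.valuation (T j - t) = V.valuation (T i - t) → cls j = cls i := by
    intro i j h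
    funext l
    show (V.valuation (T l - t) = V.valuation (T j - t)) =
      (V.valuation (T l - t) = V.valuation (T i - t))
    rw [h]
  have hstab : ∀ g ∈ Fx k ((kA hP.res hP.mem H ⊔ K₂ : IntermediateField k A) : Set A),
      ∃ π : Equiv.Perm I, ∀ i, cls (π i) = cls i ∧ ∀ j, g (y i j) = y (π i) j := by
    intro g hg
    have hgκ : ∀ x ∈ kA hP.res hP.mem H, g x = x := fun x hx =>
      hg x ((le_sup_left : _ ≤ kA hP.res hP.mem H ⊔ K₂) hx)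
    have hgK : ∀ x ∈ K₂, g x = x := fun x hx =>
      hg x ((le_sup_right : K₂ ≤ kA hP.res hP.mem H ⊔ K₂) hx)
    obtain ⟨σ, hσH, hσa, hσU, hL⟩ := hlift g hgκ hgK
    obtain ⟨π₀, hπ₀⟩ := hG.perm σ hσH hσU
    have hconj : ∀ i, ∀ x ∈ KZ K₀ Z, σ (ξ i x) = ξ (π₀ i) x := by
      intro i
      obtain ⟨h1, h3⟩ := hG.conj hc σ hσH i (π₀ i) (hπ₀ i)
      rw [hσa, div_self hc.a0, one_pow, one_mul] at h3
      exact ext_z4 ((σ : Ω →ₐ[k] Ω).comp (ξ i)) (ξ (π₀ i)) h1 h3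
    have hgood : ∀ i, (∀ x, ξ i x ∈ V) → ∀ x, ξ (π₀ i) x ∈ V := by
      intro i hi
      refine good_of_K V (KZ K₀ Z) (alKZ hc.al) (ξ (π₀ i)) fun x hx => ?_
      rw [← hconj i x hx, hL.mem]
      exact hi x
    have hdist : ∀ i, (∀ x, ξ i x ∈ V) → V.valuation (T (π₀ i) - t) = V.valuation (T i - t) := by
      intro i hi
      obtain ⟨α₁, π₁, hπ₁, hgen₁⟩ := hG.exists_gauss hc hNU hP hH i hi
      rw [← hπ₀ i]
      exact hG.dist hc hUH hP i α₁ π₁ hπ₁ hgen₁ σ hσH hσU g hgκ hL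
    let π : I → I := fun i => ⟨π₀ i, hgood i i.2.1, by rw [hdist i i.2.1]; exact i.2.2⟩
    have hinj : Function.Injective π := by
      intro i j h
      have h1 : π₀ i = π₀ j := congrArg Subtype.val h
      exact Subtype.ext (π₀.injective h1)
    refine ⟨Equiv.ofBijective π (Finite.injective_iff_bijective.1 hinj), fun i => ⟨?_, fun j => ?_⟩⟩
    · exact hcls i (π i) (hdist i i.2.1)
    · show g (ψ i (ε.symm j)) = ψ (π i) (ε.symm j)
      have hmem : ((ε.symm j : S) : A) ∈ KZ K₀ Z := by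
        rw [← hS]
        exact IntermediateField.subset_adjoin k _ (ε.symm j).2
      have h1 := (hψ i).eq (ε.symm j) ((hψ i).mem _)
      have h2 := (hψ (π i)).eq (ε.symm j) ((hψ (π i)).mem _)
      have h3 : σ (ξ i (ε.symm j : S)) ∈ V := (hL.mem _).2 ((hψ i).mem _)
      have h4 := hL.res _ ((hψ i).mem (ε.symm j : S)) h3 _ h1
      have h5 : (⟨σ (ξ i (ε.symm j : S)), h3⟩ : V) =
          ⟨ξ (π i) (ε.symm j : S), (hψ (π i)).mem _⟩ := Subtype.ext (hconj i _ hmem)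
      rw [h5, h2] at h4
      exact (Subtype.ext h4).symm
  obtain ⟨K₁, hK₁fg, -, hK₁td, hLal, hLst⟩ := descent (kA hP.res hP.mem H) K₂ hκtd hK₂fg hal cls y
    hstab
  refine ⟨K₁ ⊔ K₂, Or.inl ⟨K₁, K₂, hK₁fg, hK₂fg, hK₁td, hK₂td, rfl⟩, hLal, fun g hg => ?_⟩
  obtain ⟨π, hπ⟩ := hLst g hg
  refine ⟨π, fun i => ⟨hclsi i (π i) (hπ i).1, fun ψ₁ ψ₂ h1 h2 x hx => ?_⟩⟩
  have e1 : ψ₁ = ψ i := h1.unique (hψ i)
  have e2 : ψ₂ = ψ (π i) := h2.unique (hψ (π i))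
  rw [e1, e2]
  rw [← hS] at hx
  refine ext_gen (S : Set A) ((g : A →ₐ[k] A).comp (ψ i : A →ₐ[k] A)) (ψ (π i) : A →ₐ[k] A)
    (fun b hb => ?_) x hx
  have h3 := (hπ i).2 (ε ⟨b, hb⟩)
  have h4 : (ε.symm (ε ⟨b, hb⟩) : S) = ⟨b, hb⟩ := ε.symm_apply_apply _
  show g (ψ i b) = ψ (π i) b
  simpa only [y, h4] using h3

end

end Pool.Agent.FRJ
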