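import Pool.Agent.FRJ.J10a
import Pool.Agent.FRB.M10b

/-!
# The distances at the places which do not contain `H` (template FRB/M10b)
-/

set_option autoImplicit false

namespace Pool.Agent.FRJ

open Polynomial Pool.Agent.TBR Pool.Agent.TUQ Pool.Agent.WLD Pool.Agent.FRB

universe u

section

variable {k Ω : Type u} [Field k] [Field Ω] [Algebra k Ω]
variable {A H : IntermediateField k Ω} {V : ValuationSubring Ω} {r : V →+* Ω}
variable {K₀ : IntermediateField k A} {Z : A} {p e n : ℕ} {v a U t : Ω}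
variable {A₁ A₂ : H[X]} {m : ℕ} {T : Fin m → Ω}
  {s : Fin m → (Ω ≃ₐ[k] Ω)} {ξ : Fin m → (A →ₐ[k] Ω)} {f : Polynomial Ω}

/-- the equation of `T i` -/
theorem GDJ.val_TJ (hG : GDJ A H K₀ Z p e n v a U t A₁ A₂ T s ξ f) (i : Fin m) :
    aeval (T i) A₁ = U ^ (p ^ n) * aeval (T i) A₂ := by
  have h1 := congrArg (s i) hG.yeq
  rw [map_mul, Fx.aeval (hG.sH i), Fx.aeval (hG.sH i), hG.st i, hG.sU i] at h1
  exact h1.symm

/-- `a` is generic in a disc -/
theorem GDJ.a_gauss [IsAlgClosed Ω] [IsAlgClosed H] [IsAlgClosed A]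
    (hc : CfJ A H K₀ Z p e n v a U t) (hUH : U ∉ H)
    (hG : GDJ A H K₀ Z p e n v a U t A₁ A₂ T s ξ f) (hP : Plc A V r) (hH : ∃ β ∈ H, β ∉ V)
    (i : Fin m) (α π : H) (hπ : π ≠ 0) (hgen : Gen hP.res hP.mem H α π (T i)) :
    ∃ (α' π' : H) (_ : π' ≠ 0) (hV : (a - α') / π' ∈ V),
      r ⟨(a - α') / π', hV⟩ ∉ kap hP.res hP.mem H := by
  have hch := hc.ch
  have hΩp : CharP Ω p := charP_of_injective_algebraMap (algebraMap k Ω).injective p
  have hF : Fact p.Prime := ⟨hc.pp⟩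
  have hq0 : p ^ n ≠ 0 := pow_ne_zero _ hc.pp.ne_zero
  have hUq : ∀ γ : H, U ^ (p ^ n) ≠ γ := by
    intro γ h2
    have h3 : IsAlgebraic H U := by
      refine ⟨X ^ (p ^ n) - C γ, ?_, ?_⟩
      · exact (monic_X_pow_sub_C γ hq0).ne_zero
      · rw [map_sub, map_pow, aeval_X, aeval_C, h2]
        exact sub_self _
    exact hUH (s_mem_of_alg' H _ h3)
  have haH : a ∉ H := by
    intro h
    apply hUH
    refine s_mem_of_alg' H _ ⟨X ^ p - X - C (⟨a ^ e, pow_mem h e⟩ : H), ?_, ?_⟩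
    · intro h0
      have h1 := congrArg (fun q : H[X] => q.coeff p) h0
      have hp1 : p ≠ 1 := hc.pp.one_lt.ne'
      have hp0 : p ≠ 0 := hc.pp.ne_zero
      simp only [coeff_sub, coeff_X_pow, coeff_X, coeff_C, coeff_zero, if_pos,
        if_neg hp1.symm, if_neg hp0] at h1
      simp at h1
    · rw [map_sub, map_sub, map_pow, aeval_X, aeval_C, hc.eqU]
      exact sub_self _
  rcases gauss_or_imm hP.res hP.mem hc.trA H hH a haH with ⟨α', π', θ, hG'⟩ | hI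
  · obtain ⟨α'', π'', -, -, h1, h2, h3⟩ := hG'.gen
    exact ⟨α'', π'', h1, h2, h3⟩
  exfalso
  have hval := hG.val_TJ i
  obtain ⟨γ, ρ, β, P₁, Q₁, hN⟩ := exists_nred hP.res hP.mem H (asub α π A₁) (asub α π A₂)
    (asub_ne_zero α π hπ A₂ hG.A₂0) (by
      intro γ hγ
      have h1 := congrArg (aeval ((T i - α) / π)) hγ
      rw [map_mul, aeval_C, aeval_asub' α π hπ, aeval_asub' α π hπ, hval] at h1
      exact hUq γ (mul_right_cancel₀ (aeval_ne_zero H (T i) (hG.TH i) A₂ hG.A₂0) h1))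
  obtain ⟨hT, hT1⟩ := hgen
  obtain ⟨hY, hη, -⟩ := hN.eta (U ^ (p ^ n)) ⟨_, hT⟩ hT1 (by
    change aeval ((T i - α) / π) (asub α π A₁) =
      U ^ (p ^ n) * aeval ((T i - α) / π) (asub α π A₂)
    rw [aeval_asub' α π hπ, aeval_asub' α π hπ, hval])
  -- the function `x ^ p - x` on the disc of `U ^ (p ^ n)`
  have hfr : aeval (U ^ (p ^ n)) (X ^ p - X : H[X]) = (a ^ e) ^ (p ^ n) := by
    rw [map_sub, map_pow, aeval_X, ← hc.eqU, sub_pow_char_pow, ← pow_mul, ← pow_mul, mul_comm]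
  obtain ⟨γ', ρ', β', P₁', Q₁', hN'⟩ := exists_nred hP.res hP.mem H
    (asub γ ρ (X ^ p - X : H[X])) 1 one_ne_zero (by
      intro δ hδ
      have h1 := congrArg (aeval ((U ^ (p ^ n) - γ) / ρ)) hδ
      rw [mul_one, aeval_C, aeval_asub' γ ρ hN.ρ0, hfr] at h1
      have h2 : IsAlgebraic H a := by
        refine ⟨X ^ (e * p ^ n) - C δ, ?_, ?_⟩
        · exact (monic_X_pow_sub_C δ (Nat.mul_ne_zero (by have := hc.e2; omega) hq0)).ne_zero
        · rw [map_sub, map_pow, aeval_X, aeval_C, pow_mul, h1]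
          exact sub_self _
      exact haH (s_mem_of_alg' H _ h2))
  obtain ⟨hY', hη', -⟩ := hN'.eta ((a ^ e) ^ (p ^ n)) ⟨_, hY⟩ hη (by
    change aeval ((U ^ (p ^ n) - γ) / ρ) (asub γ ρ (X ^ p - X : H[X])) =
      (a ^ e) ^ (p ^ n) * aeval ((U ^ (p ^ n) - γ) / ρ) (1 : H[X])
    rw [aeval_asub' γ ρ hN.ρ0, hfr, map_one, mul_one])
  apply hη'
  refine imm_res hP.res hP.mem H a hI _ ?_ hY'
  have ha : a ∈ AA H {a} := (le_sup_right : IntermediateField.adjoin k {a} ≤ AA H {a})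
    (IntermediateField.subset_adjoin k _ rfl)
  have hle : H ≤ AA H {a} := le_sup_left
  exact div_mem (sub_mem (pow_mem (pow_mem ha _) _) (hle γ'.2)) (hle ρ'.2)

theorem GDJ.dist [IsAlgClosed Ω] [IsAlgClosed H] [IsAlgClosed A]
    (hc : CfJ A H K₀ Z p e n v a U t) (hUH : U ∉ H)
    (hG : GDJ A H K₀ Z p e n v a U t A₁ A₂ T s ξ f) (hP : Plc A V r)
    (i : Fin m) (α π : H) (hπ : π ≠ 0) (hgen : Gen hP.res hP.mem H α π (T i))
    (σ : Ω ≃ₐ[k] Ω) (hσ : σ ∈ Fx k (H : Set Ω)) (hU : σ U = U) (g : A ≃ₐ[k] A)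
    (hg : ∀ x ∈ kA hP.res hP.mem H, g x = x) (hL : Lft A V r σ g) :
    V.valuation (σ (T i) - t) = V.valuation (T i - t) := by
  have hr := hP.res
  have hV := hP.mem
  have hval := hG.val_TJ i
  have hπ' : (π : Ω) ≠ 0 := by simpa using hπ
  -- `σ (T i)` is a generic point of the same disc
  have hgen' : Gen hP.res hP.mem H α π (σ (T i)) := by
    obtain ⟨hT, hT1⟩ := hgen
    have e1 : (σ (T i) - α) / π = σ ((T i - α) / π) := by
      rw [map_div₀, map_sub, hσ α α.2, hσ π π.2]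
    have hT' : (σ (T i) - α) / π ∈ V := by
      rw [e1, hL.mem]
      exact hT
    refine ⟨hT', ?_⟩
    have h1 : r ⟨(σ (T i) - α) / π, hT'⟩ = g ⟨r ⟨_, hT⟩, hr.mem _⟩ := by
      have hT'' : σ ((T i - α) / π) ∈ V := by
        rw [hL.mem]
        exact hT
      have e2 : (⟨_, hT'⟩ : V) = ⟨σ ((T i - α) / π), hT''⟩ := Subtype.ext e1
      rw [e2]
      exact hL.res _ hT _ ⟨r ⟨_, hT⟩, hr.mem _⟩ rfl
    rw [h1, ← mem_kA hr hV]
    intro h2
    have h3 := hg _ h2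
    have h4 := g.injective h3
    rw [h4, mem_kA] at h2
    exact hT1 h2
  have hval' : aeval (σ (T i)) A₁ = U ^ (p ^ n) * aeval (σ (T i)) A₂ := by
    have h1 := congrArg σ hval
    rw [Fx.aeval hσ, map_mul, Fx.aeval hσ, map_pow, hU] at h1
    exact h1
  by_cases ht : (t - α) / π ∈ V
  · obtain ⟨γ, ρ, β, P₁, Q₁, hN⟩ := exists_nred hP.res hP.mem H (asub α π A₁) (asub α π A₂)
      (asub_ne_zero α π hπ A₂ hG.A₂0) (by
        intro γ hγ
        have h1 := congrArg (aeval ((t - α) / π)) hγ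
        rw [map_mul, aeval_C, aeval_asub' α π hπ, aeval_asub' α π hπ, ← hG.yeq] at h1
        have h2 := mul_right_cancel₀ hG.A₂t h1
        apply hUH
        rw [h2]
        exact γ.2)
    have key : ∀ T' : Ω, Gen hP.res hP.mem H α π T' →
        aeval T' A₁ = U ^ (p ^ n) * aeval T' A₂ →
        V.valuation (T' - t) = V.valuation (π : Ω) := by
      rintro T' ⟨hT', hT1'⟩ hv
      refine dist_eq hr hV α π T' t hπ' hT' ht ?_
      refine nred_frob hP hc.pp hc.ch hc.n0 hN U ⟨_, hT'⟩ ⟨_, ht⟩ hT1' ?_ ?_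
      · change aeval ((T' - α) / π) (asub α π A₁) =
          U ^ (p ^ n) * aeval ((T' - α) / π) (asub α π A₂)
        rw [aeval_asub' α π hπ, aeval_asub' α π hπ, hv]
      · change aeval ((t - α) / π) (asub α π A₁) = U * aeval ((t - α) / π) (asub α π A₂)
        rw [aeval_asub' α π hπ, aeval_asub' α π hπ, hG.yeq]
    rw [key _ hgen hval, key _ hgen' hval']
  · obtain ⟨hT, -⟩ := hgen
    obtain ⟨hT', -⟩ := hgen'
    rw [dist_eq' V α π _ t hπ' hT ht, dist_eq' V α π _ t hπ' hT' ht]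

end

end Pool.Agent.FRJ
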