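import Pool.Agent.FRJ.Defs
import Pool.Agent.FRB.M3

/-!
# The configuration: the places at which `U` is algebraic; `K₀`, `U` and `a` are not in `H`
-/

set_option autoImplicit false

namespace Pool.Agent.FRJ

open Polynomial Pool.Agent.TBR Pool.Agent.TUQ Pool.Agent.WLD Pool.Agent.FRB

universe u

section

variable {k Ω : Type u} [Field k] [Field Ω] [Algebra k Ω]
variable {A H : IntermediateField k Ω} {V : ValuationSubring Ω} {r : V →+* Ω}
variable {K₀ : IntermediateField k A} {Z : A} {p e n : ℕ} {v a U t : Ω}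

theorem CfJ.ad (hc : CfJ A H K₀ Z p e n v a U t) : Ad (X ^ p - X : k[X]) e := by
  have := hc.ch
  refine ⟨addPoly_as p hc.pp, ?_, ?_, hc.e2, hc.ek⟩
  · rw [derivative_sub, derivative_X_pow, derivative_X, CharP.cast_eq_zero, map_zero, zero_mul,
      zero_sub]
    exact neg_ne_zero.2 one_ne_zero
  · rw [FiniteField.X_pow_card_sub_X_natDegree_eq k hc.pp.one_lt]
    exact hc.pp.one_lt

/-- the curve -/
theorem CfJ.toC (hc : CfJ A H K₀ Z p e n v a U t) : CfC H (X ^ p - X : k[X]) e a U :=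
  ⟨hc.trH, hc.ad, by rw [aeval_as, hc.eqU]⟩

theorem CfJ.a0 (hc : CfJ A H K₀ Z p e n v a U t) : a ≠ 0 :=
  fun h => hc.aA (by rw [h]; exact zero_mem A)

theorem CfJ.v0 (hc : CfJ A H K₀ Z p e n v a U t) : v ≠ 0 := by
  rintro rfl
  exact hc.a0 (by rw [← hc.eqZ, mul_zero])

/-- an algebraically closed field which contains `U` contains `a` -/
theorem CfJ.mem_of_U (E : IntermediateField k Ω) [IsAlgClosed E]
    (hc : CfJ A H K₀ Z p e n v a U t) (h : U ∈ E) : a ∈ E := by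
  apply s_mem_of_alg' E
  refine IsAlgebraic.of_pow (n := e) (by have := hc.e2; omega) ?_
  have h1 : a ^ e ∈ E := by
    rw [← hc.eqU]
    exact sub_mem (pow_mem h p) h
  exact isAlgebraic_algebraMap (⟨a ^ e, h1⟩ : E)

/-- an algebraically closed field which contains `a` contains `U` -/
theorem CfJ.mem_of_a (E : IntermediateField k Ω) [IsAlgClosed E]
    (hc : CfJ A H K₀ Z p e n v a U t) (h : a ∈ E) : U ∈ E := by
  apply s_mem_of_alg' E
  have hφ0 : (X ^ p - X : E[X]) ≠ 0 := by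
    intro h0
    have h1 := FiniteField.X_pow_card_sub_X_natDegree_eq E hc.pp.one_lt
    rw [h0, natDegree_zero] at h1
    exact hc.pp.ne_zero h1.symm
  refine IsAlgebraic.of_aeval (X ^ p - X : E[X]) ?_
    (mem_nonZeroDivisors_of_ne_zero (leadingCoeff_ne_zero.2 hφ0)) ?_
  · rw [FiniteField.X_pow_card_sub_X_natDegree_eq E hc.pp.one_lt]
    exact hc.pp.ne_zero
  · rw [map_sub, map_pow, aeval_X, hc.eqU]
    exact isAlgebraic_algebraMap (⟨a ^ e, pow_mem h e⟩ : E)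

theorem CfJ.UA [IsAlgClosed A] (hc : CfJ A H K₀ Z p e n v a U t) : U ∉ A :=
  fun h => hc.aA (hc.mem_of_U A h)

/-- the elements of `K₀` are not all in `H` -/
theorem CfJ.K₀H [IsAlgClosed Ω] [IsAlgClosed A] [IsAlgClosed H]
    (hc : CfJ A H K₀ Z p e n v a U t) : ∃ x ∈ K₀, (x : Ω) ∉ H := by
  by_contra hcon
  push Not at hcon
  have h1 := le_of_K₀ A H K₀ hc.al hcon
  have h2 := eq_of_le A H hc.trA t hc.tH h1
  have ha : a ∈ AA H {t} := by
    rw [← hc.eqZ]
    exact mul_mem (mem_AA_le H t (h1 Z.2)) hc.vt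
  have h4 := as_rat H t hc.tH hc.ad.add hc.ad.sep hc.ad.deg e hc.e2 hc.ek a U ha hc.Ut
    (by rw [aeval_as, hc.eqU])
  rw [h2] at h4
  exact hc.UA h4

/-- the places at which `U` has a value `c`, `c ^ p ≠ c`, which is algebraic over `k` contain
`H` -/
theorem CfJ.H_mem [IsAlgClosed H] [IsAlgClosed A] (hc : CfJ A H K₀ Z p e n v a U t)
    (hNU : NU (KZ K₀ Z)) (hP : Plc A V r) (c : Ω) (hcalg : IsAlgebraic k c) (hc0 : c ^ p ≠ c)
    (hy : V.valuation (U - c) < 1) : ∀ x ∈ H, x ∈ V := by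
  by_contra hcon
  push Not at hcon
  have hr := hP.res
  have hV := hP.mem
  have hcA : c ∈ A := s_mem_of_alg A c hcalg
  obtain ⟨θ, hθ, h1⟩ := res_AA hr hV hc.trA H hcon t hc.tH
  obtain ⟨hUV, hrU⟩ := hP.sub_lt hcA hy
  have hkc := kap_closed hr hV H
  have he := hc.e2
  have haeV : a ^ e ∈ V := by
    rw [← hc.eqU]
    exact sub_mem (pow_mem hUV p) hUV
  -- `a` is integral over `V`
  have haV : a ∈ V := by
    refine plc_mem_of_aeval hP (X ^ e : k[X]) (by rw [natDegree_X_pow]; omega) ?_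
    rw [map_pow, aeval_X]
    exact haeV
  -- the residue of `a` is algebraic over `k`
  have hra : r ⟨a, haV⟩ ^ e = c ^ p - c := by
    rw [← hrU, ← map_pow, ← map_pow, ← map_sub]
    congr 1
    exact Subtype.ext hc.eqU.symm
  have hra0 : r ⟨a, haV⟩ ≠ 0 := by
    intro h0
    apply hc0
    rw [← sub_eq_zero, ← hra, h0, zero_pow (by omega)]
  have hraalg : IsAlgebraic k (r ⟨a, haV⟩) := by
    refine IsAlgebraic.of_pow (n := e) (by omega) ?_
    rw [hra]
    exact (hcalg.pow p).sub hcalg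
  have hak : r ⟨a, haV⟩ ∈ AA (kap hr hV H) {θ} :=
    mem_AA_le _ _ (s_mem_of_alg (kap hr hV H) _ hraalg)
  -- the element `Z`
  have hZ0 : (Z : Ω) ≠ 0 := fun h => hc.Z0 (Subtype.ext h)
  have hvV : v ∈ V := by
    have h2 : v = ((Z⁻¹ : A) : Ω) * a := by
      rw [← hc.eqZ, ← mul_assoc]
      have h3 : ((Z⁻¹ : A) : Ω) * (Z : Ω) = 1 := by
        rw [← show ((Z⁻¹ * Z : A) : Ω) = ((Z⁻¹ : A) : Ω) * (Z : Ω) from rfl,
          inv_mul_cancel₀ hc.Z0]
        rfl
      rw [h3, one_mul]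
    rw [h2]
    exact mul_mem (hV _ (Z⁻¹ : A).2) haV
  have hZv : (Z : Ω) * r ⟨v, hvV⟩ = r ⟨a, haV⟩ := by
    have h2 : (⟨(Z : Ω), hV _ Z.2⟩ * ⟨v, hvV⟩ : V) = ⟨a, haV⟩ := Subtype.ext hc.eqZ
    rw [← h2, map_mul, hr.fix _ _ Z.2]
  have hv0 : r ⟨v, hvV⟩ ≠ 0 := by
    intro h0
    apply hra0
    rw [← hZv, h0, mul_zero]
  have hZ : (Z : Ω) = r ⟨a, haV⟩ / r ⟨v, hvV⟩ := by
    rw [eq_div_iff hv0, hZv]
  refine hNU.not (kap hr hV H) (kap_le hr hV H) ?_ θ hθ ?_
  · have h2 := trdeg_kap hr hV H hcon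
    rw [hc.tdH] at h2
    have h3 : (2 : Cardinal) = 1 + 1 := by norm_num
    rw [h3] at h2
    exact (Cardinal.add_one_le_add_one_iff).1 h2
  · have h2 : K₀ ⊔ IntermediateField.adjoin k {Z} ≤
        (AA (kap hr hV H) {θ}).comap A.val := by
      refine sup_le ?_ ?_
      · intro x hx
        show (x : Ω) ∈ AA (kap hr hV H) {θ}
        have h3 := h1 x (hc.K₀t x hx) (hV _ x.2)
        rwa [hr.fix _ _ x.2] at h3
      · rw [IntermediateField.adjoin_le_iff]
        rintro x rfl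
        show (x : Ω) ∈ AA (kap hr hV H) {θ}
        rw [hZ]
        exact div_mem hak (h1 v hc.vt hvV)
    exact fun x hx => h2 hx

/-- `U` is not in `H` -/
theorem CfJ.UH [IsAlgClosed Ω] [IsAlgClosed H] [IsAlgClosed A]
    (hc : CfJ A H K₀ Z p e n v a U t) (hNU : NU (KZ K₀ Z)) : U ∉ H := by
  intro hUH
  -- an element `c` with `c ^ p = c + 1`
  have hdeg : (X ^ p - X - C 1 : k[X]).natDegree = p := by
    rw [natDegree_sub_C, FiniteField.X_pow_card_sub_X_natDegree_eq k hc.pp.one_lt]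
  obtain ⟨c, hcr⟩ := IsAlgClosed.exists_aeval_eq_zero Ω (X ^ p - X - C 1 : k[X]) (by
    intro h0
    have h2 := natDegree_eq_of_degree_eq_some h0
    rw [hdeg] at h2
    exact hc.pp.ne_zero h2)
  have hcp : c ^ p - c = 1 := by
    rw [map_sub, aeval_as, aeval_C, map_one, sub_eq_zero] at hcr
    exact hcr
  have hcalg : IsAlgebraic k c := by
    refine ⟨X ^ p - X - C 1, ?_, hcr⟩
    intro h0
    rw [h0, natDegree_zero] at hdeg
    exact hc.pp.ne_zero hdeg.symm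
  have hc0 : c ^ p ≠ c := by
    intro h0
    rw [h0, sub_self] at hcp
    exact zero_ne_one hcp
  have hcA : c ∈ A := s_mem_of_alg A c hcalg
  have hcH : c ∈ H := s_mem_of_alg H c hcalg
  have h3 : U - c ∉ A := fun h => hc.UA (by simpa using add_mem h hcA)
  obtain ⟨V, r, hP, hv⟩ := exists_plc A hc.trA (U - c) h3
  have h1 := hc.H_mem hNU hP c hcalg hc0 hv
  have h2 : (U - c)⁻¹ ∈ V := h1 _ (inv_mem (sub_mem hUH hcH))
  have h0 : U - c ≠ 0 := fun h => h3 (by rw [h]; exact zero_mem A)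
  rw [val_le, map_inv₀, inv_le_one₀ (zero_lt_iff.mpr ((_root_.map_ne_zero _).mpr h0))] at h2
  exact absurd hv (not_lt.mpr h2)

theorem CfJ.aH [IsAlgClosed Ω] [IsAlgClosed H] [IsAlgClosed A]
    (hc : CfJ A H K₀ Z p e n v a U t) (hNU : NU (KZ K₀ Z)) : a ∉ H :=
  fun h => hc.UH hNU (hc.mem_of_a H h)

end

end Pool.Agent.FRJ
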