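import Pool.Agent.FRJ.J3
import Pool.Agent.FRB.M4

/-!
# The embeddings (template FRB/M4)
-/

set_option autoImplicit false

namespace Pool.Agent.FRJ

open Polynomial Pool.Agent.TBR Pool.Agent.TUQ Pool.Agent.WLD Pool.Agent.FRB

universe u

section

variable {k Ω : Type u} [Field k] [Field Ω] [Algebra k Ω]
variable {A H : IntermediateField k Ω} {V : ValuationSubring Ω} {r : V →+* Ω}
variable {K₀ : IntermediateField k A} {Z : A} {p e n : ℕ} {v a U t : Ω}
variable {A₁ A₂ : H[X]} {m : ℕ} {T : Fin m → Ω}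
  {s : Fin m → (Ω ≃ₐ[k] Ω)} {ξ : Fin m → (A →ₐ[k] Ω)} {f : Polynomial Ω}

/-- an embedding of `A` is given by its values on `K₀` and `Z` -/
theorem exists_embJ [IsAlgClosed Ω] (al : ∀ x : A, IsAlgebraic K₀ x) (e2 : 2 ≤ e)
    (ZK : Z ^ e ∈ K₀) (irrZ : Irreducible (X ^ e - C (⟨Z ^ e, ZK⟩ : K₀)))
    (s : Ω ≃ₐ[k] Ω) (Z' : Ω) (hZ' : Z' ^ e = s ((Z ^ e : A) : Ω)) :
    ∃ ξ : A →ₐ[k] Ω, (∀ x ∈ K₀, ξ x = s x) ∧ ξ Z = Z' := by
  let g : K₀ →ₐ[k] Ω := (s : Ω →ₐ[k] Ω).comp (A.val.comp K₀.val)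
  obtain ⟨ξ, hξK, hξZ⟩ := ext_emb K₀ al g _ irrZ Z (by
    rw [map_sub, map_pow, aeval_X, aeval_C]
    exact sub_self _) Z' (by
    rw [eval₂_sub, eval₂_X_pow, eval₂_C, hZ', sub_eq_zero]
    rfl)
  exact ⟨ξ, fun x hx => hξK ⟨x, hx⟩, hξZ⟩

/-- existence of the data -/
theorem CfJ.exists_GD [IsAlgClosed Ω] [IsAlgClosed H] [IsAlgClosed A]
    (hc : CfJ A H K₀ Z p e n v a U t) (hUH : U ∉ H) :
    ∃ (A₁ A₂ : H[X]) (m : ℕ) (T : Fin m → Ω) (s : Fin m → (Ω ≃ₐ[k] Ω))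
      (ξ : Fin m → (A →ₐ[k] Ω)) (f : Polynomial Ω),
      GDJ A H K₀ Z p e n v a U t A₁ A₂ T s ξ f := by
  classical
  obtain ⟨A₁, A₂, hcop, hA₂, hA₂t, haeq⟩ := exists_frac H t hc.tH U hc.Ut
  have hΩp : CharP Ω p := by
    have := hc.ch
    exact charP_of_injective_algebraMap (algebraMap k Ω).injective p
  have hpf : Fact p.Prime := ⟨hc.pp⟩
  have ha' : aeval t A₁ / aeval t A₂ = U := by rw [div_eq_iff hA₂t, haeq]
  have hq : 0 < p ^ n := pow_pos hc.pp.pos n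
  have hq2 : 2 ≤ p ^ n := by
    calc 2 ≤ p := hc.pp.two_le
      _ = p ^ 1 := (pow_one p).symm
      _ ≤ p ^ n := Nat.pow_le_pow_right hc.pp.pos hc.n0
  have hy0 : U ≠ 0 := fun h => hUH (h ▸ zero_mem H)
  set α₁ : Polynomial Ω := A₁.map (algebraMap H Ω) with hα₁
  set α₂ : Polynomial Ω := A₂.map (algebraMap H Ω) with hα₂
  set f : Polynomial Ω := α₁ - C (U ^ (p ^ n)) * α₂ with hf
  have hyqH : U ^ (p ^ n) ∉ H := fun h => hUH (pow_mem_H hq h)
  have heval : ∀ (x : Ω) (P : H[X]), (P.map (algebraMap H Ω)).eval x = aeval x P := fun x P =>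
    eval_map_algebraMap P x
  have hf0 : f ≠ 0 := by
    intro h
    obtain ⟨j, hj⟩ : ∃ j, A₂.coeff j ≠ 0 := by
      by_contra hcon
      push Not at hcon
      exact hA₂ (Polynomial.ext fun j => by rw [hcon j, coeff_zero])
    have h1 := congrArg (fun p => p.coeff j) h
    rw [hf, hα₁, hα₂] at h1
    simp only [coeff_sub, coeff_C_mul, coeff_map, coeff_zero] at h1
    have hj' : ((A₂.coeff j : H) : Ω) ≠ 0 := fun h => hj (Subtype.ext h)
    apply hyqH
    have h2 : U ^ (p ^ n) = ((A₁.coeff j : H) : Ω) / (A₂.coeff j : H) := by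
      rw [eq_div_iff hj']
      exact (sub_eq_zero.1 h1).symm
    rw [h2]
    exact div_mem (Subtype.property _) (Subtype.property _)
  have hroot : ∀ x, f.IsRoot x → aeval x A₁ = U ^ (p ^ n) * aeval x A₂ := by
    intro x hx
    have h1 := hx.eq_zero
    rw [hf, eval_sub, eval_mul, eval_C, heval, heval, sub_eq_zero] at h1
    exact h1
  have hTH : ∀ x, f.IsRoot x → x ∉ H := by
    intro x hx hxH
    have h1 := hroot x hx
    have hm : ∀ P : H[X], aeval x P ∈ H := by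
      intro P
      have : aeval x P = ((P.eval ⟨x, hxH⟩ : H) : Ω) := by
        have h2 := aeval_algebraMap_apply Ω (⟨x, hxH⟩ : H) P
        exact h2
      rw [this]
      exact Subtype.property _
    have h2 : aeval x A₂ = 0 := by
      by_contra hne
      apply hyqH
      have h3 : U ^ (p ^ n) = aeval x A₁ / aeval x A₂ := by
        rw [eq_div_iff hne, h1]
      rw [h3]
      exact div_mem (hm _) (hm _)
    rw [h2, mul_zero] at h1
    obtain ⟨p, q, hpq⟩ := hcop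
    have := congrArg (aeval x) hpq
    rw [map_add, map_mul, map_mul, h1, h2, mul_zero, mul_zero, add_zero, map_one] at this
    exact zero_ne_one this
  -- the roots
  obtain ⟨m, T, hT⟩ : ∃ (m : ℕ) (T : Fin m → Ω), f.roots = Finset.univ.val.map T := by
    refine ⟨f.roots.toList.length, f.roots.toList.get, ?_⟩
    rw [Fin.univ_val_map, List.ofFn_get, Multiset.coe_toList]
  have hTr : ∀ i, f.IsRoot (T i) := by
    intro i
    rw [← mem_roots hf0, hT, Multiset.mem_map]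
    exact ⟨i, Finset.mem_univ_val _, rfl⟩
  have hs : ∀ i, ∃ s ∈ Fx k (H : Set Ω), s t = T i := fun i =>
    exists_s H hc.trH t (T i) hc.tH (hTH _ (hTr i))
  choose s hsH hst using hs
  have hA₂T : ∀ i, aeval (T i) A₂ ≠ 0 := fun i => aeval_ne_zero H _ (hTH _ (hTr i)) A₂ hA₂
  have hsU : ∀ i, s i U = U ^ (p ^ n) := by
    intro i
    conv_lhs => rw [← ha']
    rw [map_div₀, Fx_aeval H (hsH i), Fx_aeval H (hsH i), hst, hroot _ (hTr i), mul_div_assoc,
      div_self (hA₂T i), mul_one]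
  have hTt : ∀ i, T i ≠ t := by
    intro i h
    have h1 := hroot _ (hTr i)
    rw [h, ← haeq] at h1
    have h2 : U = U ^ (p ^ n) := mul_right_cancel₀ hA₂t h1
    have h3 : U ^ (p ^ n - 1) = 1 := by
      apply mul_left_cancel₀ hy0
      rw [← pow_succ', Nat.sub_add_cancel hq, mul_one]
      exact h2.symm
    apply hUH
    refine pow_mem_H (e := p ^ n - 1) (by omega) ?_
    rw [h3]
    exact one_mem H
  have hv0 : v ≠ 0 := by
    rintro rfl
    have h := hc.eqZ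
    rw [mul_zero] at h
    exact hc.aA (h ▸ zero_mem A)
  have hsv : ∀ i, s i v ≠ 0 := fun i => (map_ne_zero (s i)).2 hv0
  have hξ : ∀ i, ∃ ξ : A →ₐ[k] Ω, (∀ x ∈ K₀, ξ x = s i x) ∧ ξ Z = a ^ (p ^ n) / s i v := by
    intro i
    refine exists_embJ hc.al hc.e2 hc.ZK hc.irrZ (s i) _ ?_
    have h1 : ((Z ^ e : A) : Ω) * v ^ e = U ^ p - U := by
      have h2 : ((Z ^ e : A) : Ω) = (Z : Ω) ^ e := rfl
      rw [h2, ← mul_pow, hc.eqZ, hc.eqU]
    have h3 := congrArg (s i) h1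
    have h4 : (U ^ (p ^ n)) ^ p - U ^ (p ^ n) = (a ^ e) ^ (p ^ n) := by
      rw [← pow_mul, mul_comm, pow_mul, ← sub_pow_char_pow, hc.eqU]
    rw [map_mul, map_pow, map_sub, map_pow, hsU, h4] at h3
    rw [div_pow, ← pow_mul, mul_comm (p ^ n) e, pow_mul, div_eq_iff (pow_ne_zero e (hsv i)), h3]
  choose ξ hξK hξZ using hξ
  exact ⟨A₁, A₂, m, T, s, ξ, f, hcop, hA₂, hA₂t, haeq, hf0, rfl, hT, fun i => hTH _ (hTr i),
    hTt, hsH, hst, hsU, hsv, hξK, hξZ⟩

/-- an automorphism over `H(U)` permutes the roots -/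
theorem GDJ.perm (hG : GDJ A H K₀ Z p e n v a U t A₁ A₂ T s ξ f) (σ : Ω ≃ₐ[k] Ω)
    (hσ : σ ∈ Fx k (H : Set Ω)) (hU : σ U = U) :
    ∃ π : Equiv.Perm (Fin m), ∀ i, σ (T i) = T (π i) := by
  let g : Ω →+* Ω := (σ : Ω →+* Ω)
  have hgP : ∀ P : H[X], (P.map (algebraMap H Ω)).map g = P.map (algebraMap H Ω) := by
    intro P
    rw [Polynomial.map_map]
    congr 1
    ext x
    exact hσ _ x.2
  have hgf : f.map g = f := by
    have hga : g (U ^ (p ^ n)) = U ^ (p ^ n) := by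
      rw [map_pow]
      exact congrArg (· ^ (p ^ n)) hU
    rw [hG.fdef, Polynomial.map_sub, Polynomial.map_mul, hgP, hgP, map_C, hga]
  have h1 : f.roots.map g = f.roots := by
    have h2 := Polynomial.map_roots_le_of_injective f (f := g) g.injective
    rw [hgf] at h2
    exact Multiset.eq_of_le_of_card_le h2 (by rw [Multiset.card_map])
  rw [hG.roots, Multiset.map_map] at h1
  exact exists_perm_of_map _ _ h1

theorem GDJ.conj (hc : CfJ A H K₀ Z p e n v a U t)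
    (hG : GDJ A H K₀ Z p e n v a U t A₁ A₂ T s ξ f) (σ : Ω ≃ₐ[k] Ω)
    (hσ : σ ∈ Fx k (H : Set Ω)) (i j : Fin m) (h : σ (T i) = T j) :
    (∀ x ∈ K₀, σ (ξ i x) = ξ j x) ∧ σ (ξ i Z) = (σ a / a) ^ (p ^ n) * ξ j Z := by
  have hag : ∀ x ∈ AA H {t}, σ (s i x) = s j x := by
    intro x hx
    obtain ⟨p, q, rfl⟩ := (Pool.Agent.TBR.V.mem_AA H t x).mp hx
    rw [map_div₀, map_div₀, map_div₀, Fx_aeval H (hG.sH i), Fx_aeval H (hG.sH i),
      Fx_aeval H (hG.sH j), Fx_aeval H (hG.sH j), Fx_aeval H hσ, Fx_aeval H hσ, hG.st, hG.st, h]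
  refine ⟨fun x hx => ?_, ?_⟩
  · rw [hG.ξK i x hx, hG.ξK j x hx]
    exact hag x (hc.K₀t x hx)
  · have ha0 : a ≠ 0 := fun h => hc.aA (h ▸ zero_mem A)
    rw [hG.ξZ, hG.ξZ, map_div₀, hag v hc.vt, map_pow, div_pow]
    have h1 : a ^ (p ^ n) ≠ 0 := pow_ne_zero _ ha0
    field_simp

end

end Pool.Agent.FRJ
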