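import Pool.Agent.FRJ.J4
import Pool.Agent.FRB.M5

/-!
# The embeddings at the places which contain `H` (template FRB/M5)
-/

set_option autoImplicit false

namespace Pool.Agent.FRJ

open Polynomial Pool.Agent.TBR Pool.Agent.TUQ Pool.Agent.WLD Pool.Agent.FRB

universe u

section

variable {k Ω : Type u} [Field k] [Field Ω] [Algebra k Ω]
variable {A H : IntermediateField k Ω} {V : ValuationSubring Ω} {r : V →+* Ω}
variable {K₀ : IntermediateField k A} {Z : A} {p e n : ℕ} {v a U t : Ω}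
variable {A₁ A₂ : H[X]} {m : ℕ} {T : Fin m → Ω}
  {s : Fin m → (Ω ≃ₐ[k] Ω)} {ξ : Fin m → (A →ₐ[k] Ω)} {f : Polynomial Ω}

/-- (3.5) a good coordinate -/
theorem CfJ.exists_coord [IsAlgClosed Ω] [IsAlgClosed H] [IsAlgClosed A]
    (hc : CfJ A H K₀ Z p e n v a U t) :
    ∃ t', CfJ A H K₀ Z p e n v a U t' ∧ CP A H K₀ t' := by
  obtain ⟨x₁, hx₁, hx₁H⟩ := hc.K₀H
  obtain ⟨P, Q, hPQ, hQ, hQt, hx⟩ := exists_frac H t hc.tH (x₁ : Ω) (hc.K₀t x₁ hx₁)
  set n := max P.natDegree Q.natDegree with hn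
  have hxPQ : (x₁ : Ω) = aeval t P / aeval t Q := by rw [eq_div_iff hQt, hx]
  have hn0 : 0 < n := by
    by_contra h0
    have h3 : n = 0 := by omega
    have h4 : P.natDegree = 0 := Nat.le_zero.1 (h3 ▸ le_max_left _ _)
    have h5 : Q.natDegree = 0 := Nat.le_zero.1 (h3 ▸ le_max_right _ _)
    apply hx₁H
    rw [hxPQ, eq_C_of_natDegree_eq_zero h4, eq_C_of_natDegree_eq_zero h5, aeval_C, aeval_C]
    exact div_mem (P.coeff 0).2 (Q.coeff 0).2
  -- the choice of `c₀`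
  have hco : (C (P.coeff n : Ω) - X * C (Q.coeff n : Ω) : Polynomial Ω) ≠ 0 := by
    intro h
    have h1 := congrArg (fun p => p.coeff 0) h
    have h2 := congrArg (fun p => p.coeff 1) h
    simp only [coeff_sub, coeff_C_zero, coeff_zero, sub_eq_zero, mul_coeff_zero,
      coeff_X_zero, zero_mul] at h1
    have h3 : (C (P.coeff n : Ω)).coeff 1 = 0 := coeff_C_of_ne_zero one_ne_zero
    simp only [coeff_sub, h3, coeff_X_mul, coeff_C_zero, coeff_zero, zero_sub, neg_eq_zero] at h2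
    have h1' : P.coeff n = 0 := Subtype.ext h1
    have h2' : Q.coeff n = 0 := Subtype.ext h2
    rcases le_total P.natDegree Q.natDegree with h | h
    · rw [hn, max_eq_right h, coeff_natDegree, leadingCoeff_eq_zero] at h2'
      exact hQ h2'
    · rw [hn, max_eq_left h, coeff_natDegree, leadingCoeff_eq_zero] at h1'
      have : n = 0 := by
        rw [hn, max_eq_left h, h1', natDegree_zero]
      omega
  obtain ⟨c₀, hc₀, hc₀'⟩ := exists_alg_point (k := k) _ hco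
  rw [eval_sub, eval_mul, eval_C, eval_C, eval_X] at hc₀'
  have hc₀H : c₀ ∈ H := s_mem_of_alg H c₀ hc₀
  set γ : H := ⟨c₀, hc₀H⟩ with hγ
  have hcn : (P - C γ * Q).coeff n ≠ 0 := by
    intro h
    apply hc₀'
    rw [coeff_sub, coeff_C_mul] at h
    have := congrArg (Subtype.val) h
    exact this
  have hdeg : (P - C γ * Q).degree ≠ 0 := by
    have h1 : n ≤ (P - C γ * Q).natDegree := le_natDegree_of_ne_zero hcn
    intro h0
    rw [natDegree_eq_zero_iff_degree_le_zero.2 h0.le] at h1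
    omega
  obtain ⟨T₀, hT₀⟩ := IsAlgClosed.exists_root _ hdeg
  rw [IsRoot.def, eval_sub, eval_mul, eval_C] at hT₀
  have hQT₀ : Q.eval T₀ ≠ 0 := by
    intro h
    rw [h, mul_zero, sub_zero] at hT₀
    obtain ⟨u, v, huv⟩ := hPQ
    have := congrArg (eval T₀) huv
    rw [eval_add, eval_mul, eval_mul, h, hT₀, mul_zero, mul_zero, add_zero, eval_one] at this
    exact zero_ne_one this
  have htT₀ : t - T₀ ≠ 0 := fun h => hc.tH (by
    rw [sub_eq_zero.1 h]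
    exact T₀.2)
  have htH' : (t - T₀)⁻¹ ∉ H := fun h => hc.tH (by
    have h1 := add_mem (inv_mem h) T₀.2
    rwa [inv_inv, sub_add_cancel] at h1)
  have hle : AA H {t} ≤ AA H {(t - T₀)⁻¹} := by
    refine sup_le (Pool.Agent.TBR.V.le_AA H _) ?_
    rw [IntermediateField.adjoin_le_iff]
    rintro x rfl
    have h1 := add_mem (inv_mem (self_mem_AA H (x - T₀)⁻¹)) (mem_AA_le H (x - T₀)⁻¹ T₀.2)
    rwa [inv_inv, sub_add_cancel] at h1
  refine ⟨(t - T₀)⁻¹, ⟨hc.trA, hc.trH, hc.tdA, hc.tdH, hc.fg, hc.al, hc.pp, hc.ch, hc.e2, hc.ek,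
    hc.n0, hc.en, hc.ZK, hc.Z0, hc.irrZ, hc.aA, htH',
    fun x hx => hle (hc.K₀t x hx), hle hc.vt, hle hc.Ut, hc.eqU, hc.eqZ⟩, ?_⟩
  intro V r hP hH s hs hgood
  by_contra hcon
  have hsT₀ : s (T₀ : Ω) = T₀ := hs _ T₀.2
  have h1 : V.valuation (s t - T₀) < 1 := by
    rw [map_inv₀, map_sub, hsT₀, val_le, map_inv₀, not_le] at hcon
    by_contra hge
    rw [not_lt] at hge
    exact absurd hcon (not_lt.2 (inv_le_one_of_one_le₀ hge))
  have hTV : (T₀ : Ω) ∈ V := hH _ T₀.2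
  have hstV : s t ∈ V := by
    have := add_mem ((val_le V _).2 h1.le) hTV
    rwa [sub_add_cancel] at this
  have hres : r ⟨s t, hstV⟩ = r ⟨(T₀ : Ω), hTV⟩ := (hP.res.eq_of_sub hP.mem hstV hTV).2 h1
  have hev : ∀ G : H[X], aeval (T₀ : Ω) G = (G.eval T₀ : H) := fun G =>
    aeval_algebraMap_apply Ω T₀ G
  have h2 : s x₁ * aeval (s t) Q = aeval (s t) P := by
    rw [← Fx_aeval H hs, ← Fx_aeval H hs, ← map_mul, hx]
  have hsame : ∀ G : H[X], r ⟨aeval (s t) G, aeval_memV hH G hstV⟩ =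
      r ⟨((G.eval T₀ : H) : Ω), hH _ (G.eval T₀).2⟩ := by
    intro G
    rw [res_aevalH r hH G hstV, hres, ← res_aevalH r hH G hTV]
    congr 1
    exact Subtype.ext (hev G)
  have hQ1 : V.valuation (aeval (s t) Q) = 1 := by
    refine hP.unit (aeval_memV hH Q hstV) ?_
    rw [hsame, Ne, hP.res_eq_zero, val_H hH (Q.eval T₀).2 (by simpa using hQT₀)]
    exact lt_irrefl 1
  have hsx : s x₁ ∈ V := by
    rw [val_le]
    have h3 := congrArg V.valuation h2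
    rw [map_mul, hQ1, mul_one] at h3
    rw [h3, ← val_le]
    exact aeval_memV hH P hstV
  have hc₀V : c₀ ∈ V := hH _ hc₀H
  have hc₀A : c₀ ∈ A := s_mem_of_alg A c₀ hc₀
  have h4 : r ⟨s x₁, hsx⟩ = c₀ := by
    have h5 : r ⟨s x₁, hsx⟩ * r ⟨aeval (s t) Q, aeval_memV hH Q hstV⟩ =
        c₀ * r ⟨aeval (s t) Q, aeval_memV hH Q hstV⟩ := by
      rw [← map_mul]
      have h6 : (⟨s x₁, hsx⟩ * ⟨aeval (s t) Q, aeval_memV hH Q hstV⟩ : V) =
          ⟨aeval (s t) P, aeval_memV hH P hstV⟩ := Subtype.ext h2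
      rw [h6, hsame, hsame]
      have h7 : (⟨((P.eval T₀ : H) : Ω), hH _ (P.eval T₀).2⟩ : V) =
          ⟨c₀, hc₀V⟩ * ⟨((Q.eval T₀ : H) : Ω), hH _ (Q.eval T₀).2⟩ := by
        apply Subtype.ext
        show ((P.eval T₀ : H) : Ω) = c₀ * ((Q.eval T₀ : H) : Ω)
        rw [sub_eq_zero.1 hT₀]
        rfl
      rw [h7, map_mul, hP.res.fix c₀ hc₀V hc₀A]
    refine mul_right_cancel₀ ?_ h5
    rw [Ne, hP.res_eq_zero, hQ1]
    exact lt_irrefl 1
  -- the contradiction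
  have h5 : aeval x₁ (minpoly k c₀) ∈ K₀ := by
    have := aeval_algebraMap_apply A (⟨x₁, hx₁⟩ : K₀) (minpoly k c₀)
    have h6 : aeval x₁ (minpoly k c₀) = algebraMap K₀ A (aeval (⟨x₁, hx₁⟩ : K₀) (minpoly k c₀)) := this
    rw [h6]
    exact Subtype.property _
  have h6 : (aeval x₁ (minpoly k c₀) : A) ≠ 0 := by
    intro h
    apply hx₁H
    refine s_mem_of_alg H _ ⟨minpoly k c₀, minpoly.ne_zero hc₀.isIntegral, ?_⟩
    have h7 := congrArg (algebraMap A Ω) h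
    rw [map_zero, ← aeval_algebraMap_apply] at h7
    exact h7
  have h7 := hgood _ h5 h6
  have h8 : s ((aeval x₁ (minpoly k c₀) : A) : Ω) = aeval (s x₁) (minpoly k c₀) := by
    have h9 : ((aeval x₁ (minpoly k c₀) : A) : Ω) = aeval (x₁ : Ω) (minpoly k c₀) :=
      (aeval_algebraMap_apply Ω x₁ (minpoly k c₀)).symm
    rw [h9]
    exact (aeval_algHom_apply (s : Ω →ₐ[k] Ω) (x₁ : Ω) (minpoly k c₀)).symm
  rw [h8] at h7
  have h9 := hP.res_aeval (minpoly k c₀) hsx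
  rw [h4, minpoly.aeval, hP.res_eq_zero, h7] at h9
  exact lt_irrefl 1 h9

theorem GDJ.T_mem (hG : GDJ A H K₀ Z p e n v a U t A₁ A₂ T s ξ f) (hCP : CP A H K₀ t)
    (hP : Plc A V r) (hH : ∀ x ∈ H, x ∈ V) (i : Fin m) (hi : ∀ x, ξ i x ∈ V) : T i ∈ V := by
  rw [← hG.st i]
  refine hCP V r hP hH (s i) (hG.sH i) fun x hx h0 => ?_
  rw [← hG.ξK i x hx]
  exact good_unit (ξ i) hi x h0

/-- (5.1) the embeddings at the roots near `t` are residually the identity on `K₀` -/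
theorem GDJ.K₀_res [IsAlgClosed H] (hc : CfJ A H K₀ Z p e n v a U t)
    (hG : GDJ A H K₀ Z p e n v a U t A₁ A₂ T s ξ f)
    (hP : Plc A V r) (hH : ∀ x ∈ H, x ∈ V) (ht : t ∈ V) (i : Fin m)
    (hi : V.valuation (T i - t) < 1) (x : A) (hx : x ∈ K₀) :
    ∃ h : ξ i x ∈ V, r ⟨ξ i x, h⟩ = x := by
  obtain ⟨hT, hr⟩ := res_of_lt hP ht hi
  have hst : s i t ∈ V := by
    rw [hG.st]
    exact hT
  have hr' : r ⟨s i t, hst⟩ = r ⟨t, ht⟩ := by
    rw [← hr]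
    congr 1
    exact Subtype.ext (hG.st i)
  obtain ⟨h1, h2⟩ := frac_res_eq hP hH hc.tH ht (hc.K₀t x hx) (hP.mem _ x.2) (hG.sH i) hst hr'
  have h3 : ξ i x = s i x := hG.ξK i x hx
  refine ⟨by rw [h3]; exact h1, ?_⟩
  have h4 : (⟨ξ i x, by rw [h3]; exact h1⟩ : V) = ⟨s i x, h1⟩ := Subtype.ext h3
  rw [h4, h2, hP.res.fix _ _ x.2]

/-- the embeddings at the roots near `t` have values in `V` -/
theorem GDJ.good_of_lt [IsAlgClosed H] (hc : CfJ A H K₀ Z p e n v a U t)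
    (hG : GDJ A H K₀ Z p e n v a U t A₁ A₂ T s ξ f)
    (hP : Plc A V r) (hH : ∀ x ∈ H, x ∈ V) (ht : t ∈ V) (i : Fin m)
    (hi : V.valuation (T i - t) < 1) (x : A) : ξ i x ∈ V := by
  refine Pool.Agent.TBR.V.mem_of_isAlgebraic V (K₀.map (ξ i)) ?_ _ ?_
  · rintro _ ⟨y, hy, rfl⟩
    exact (hG.K₀_res hc hP hH ht i hi y hy).1
  · obtain ⟨p, hp, h1⟩ := hc.al x
    let g : K₀ →+* K₀.map (ξ i) :=
      { toFun := fun y => ⟨ξ i y, ⟨y, y.2, rfl⟩⟩
        map_one' := Subtype.ext (map_one (ξ i))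
        map_mul' := fun x y => Subtype.ext (map_mul (ξ i) (x : A) y)
        map_zero' := Subtype.ext (map_zero (ξ i))
        map_add' := fun x y => Subtype.ext (map_add (ξ i) (x : A) y) }
    refine ⟨p.map g, (Polynomial.map_ne_zero_iff g.injective).2 hp, ?_⟩
    have h2 := congrArg (ξ i) h1
    rw [map_zero, aeval_def] at h2
    have h3 := hom_eval₂ p (algebraMap K₀ A) (ξ i : A →+* Ω) x
    rw [aeval_def, eval₂_map]
    exact h3.symm.trans h2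

/-- the indices which occur in the local statement -/
theorem GDJ.idx_iff [IsAlgClosed H] (hc : CfJ A H K₀ Z p e n v a U t) (hCP : CP A H K₀ t)
    (hG : GDJ A H K₀ Z p e n v a U t A₁ A₂ T s ξ f)
    (hP : Plc A V r) (hH : ∀ x ∈ H, x ∈ V) (i : Fin m) :
    ((∀ x, ξ i x ∈ V) ∧ V.valuation (T i - t) ≠ 1) ↔ V.valuation (T i - t) < 1 := by
  have ht := hCP.t_mem hP hH
  constructor
  · rintro ⟨h1, h2⟩
    exact lt_of_le_of_ne ((val_le V _).1 (sub_mem (hG.T_mem hCP hP hH i h1) ht)) h2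
  · intro h
    exact ⟨hG.good_of_lt hc hP hH ht i h, h.ne⟩

theorem GDJ.psi_K₀ [IsAlgClosed H] (hc : CfJ A H K₀ Z p e n v a U t)
    (hG : GDJ A H K₀ Z p e n v a U t A₁ A₂ T s ξ f)
    (hP : Plc A V r) (hH : ∀ x ∈ H, x ∈ V) (ht : t ∈ V) (i : Fin m)
    (hi : V.valuation (T i - t) < 1) (ψ : A ≃ₐ[k] A) (hψ : ResE A V r (ξ i) ψ) (x : A)
    (hx : x ∈ K₀) : ψ x = x := by
  obtain ⟨h1, h2⟩ := hG.K₀_res hc hP hH ht i hi x hx
  have h3 := hψ.eq x h1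
  rw [h2] at h3
  exact Subtype.ext h3.symm

/-- `U` at the roots near `t` -/
theorem GDJ.res_y [IsAlgClosed H] (hc : CfJ A H K₀ Z p e n v a U t)
    (hG : GDJ A H K₀ Z p e n v a U t A₁ A₂ T s ξ f)
    (hP : Plc A V r) (hH : ∀ x ∈ H, x ∈ V) (ht : t ∈ V) (hUV : U ∈ V) (i : Fin m)
    (hi : V.valuation (T i - t) < 1) : (r ⟨U, hUV⟩) ^ (p ^ n) = r ⟨U, hUV⟩ := by
  obtain ⟨hT, hr⟩ := res_of_lt hP ht hi
  have hsy : U ^ (p ^ n) * aeval (T i) A₂ = aeval (T i) A₁ := by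
    have h := congrArg (s i) hG.yeq
    rw [map_mul, Fx_aeval H (hG.sH i), Fx_aeval H (hG.sH i), hG.st, hG.sU] at h
    exact h
  have hne := frac_res (r := r) hH hG.cop ht hUV hG.yeq
  have h1 : (⟨U, hUV⟩ * ⟨aeval t A₂, aeval_memV hH A₂ ht⟩ : V) =
      ⟨aeval t A₁, aeval_memV hH A₁ ht⟩ := Subtype.ext hG.yeq
  have h2 : (⟨U, hUV⟩ ^ (p ^ n) * ⟨aeval (T i) A₂, aeval_memV hH A₂ hT⟩ : V) =
      ⟨aeval (T i) A₁, aeval_memV hH A₁ hT⟩ := Subtype.ext hsy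
  have h3 := congrArg r h1
  have h4 := congrArg r h2
  rw [map_mul, res_aevalH r hH A₂ ht, res_aevalH r hH A₁ ht] at h3
  rw [map_mul, map_pow, res_aevalH r hH A₂ hT, res_aevalH r hH A₁ hT, hr, ← h3] at h4
  exact mul_right_cancel₀ hne h4

/-- the residues at the places with `U = c`, `c ^ p ≠ c` in the field with `p ^ n` elements -/
theorem GDJ.psi_c [IsAlgClosed H] (hc : CfJ A H K₀ Z p e n v a U t)
    (hG : GDJ A H K₀ Z p e n v a U t A₁ A₂ T s ξ f)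
    (hP : Plc A V r) (hH : ∀ x ∈ H, x ∈ V) (ht : t ∈ V) (c : A) (hc0 : c ^ p ≠ c)
    (hcq : c ^ (p ^ n) = c) (hy : V.valuation (U - c) < 1) (i : Fin m)
    (hi : V.valuation (T i - t) < 1) (ψ : A ≃ₐ[k] A) (hψ : ResE A V r (ξ i) ψ) :
    ψ Z = (c ^ p - c) ^ ((p ^ n - 1) / e) * Z := by
  have hbV : (c : Ω) ∈ V := hP.mem _ c.2
  have he : e ≠ 0 := by
    have := hc.e2
    omega
  have hUV : U ∈ V := by
    have := add_mem ((val_le V _).2 hy.le) hbV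
    rwa [sub_add_cancel] at this
  have hrU : r ⟨U, hUV⟩ = c := by
    rw [(hP.res.eq_of_sub hP.mem hUV hbV).2 hy, hP.res.fix _ _ c.2]
  have hyV : a ^ e ∈ V := by
    rw [← hc.eqU]
    exact sub_mem (pow_mem hUV p) hUV
  have hry : r ⟨a ^ e, hyV⟩ = (c : Ω) ^ p - c := by
    have h6 : (⟨U, hUV⟩ ^ p - ⟨U, hUV⟩ : V) = ⟨a ^ e, hyV⟩ := Subtype.ext hc.eqU
    rw [← h6, map_sub, map_pow, hrU]
  have haV : a ∈ V := by
    rw [val_le] at hyV ⊢
    rw [map_pow] at hyV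
    exact (pow_le_one_iff_of_nonneg zero_le he).1 hyV
  have hra : r ⟨a, haV⟩ ^ e = (c : Ω) ^ p - c := by
    rw [← hry, ← map_pow]
    rfl
  have hcc : (c : Ω) ^ p - c ≠ 0 := by
    intro h0
    exact hc0 (Subtype.ext (sub_eq_zero.1 h0))
  have ha0 : r ⟨a, haV⟩ ≠ 0 := by
    intro h0
    rw [h0, zero_pow he] at hra
    exact hcc hra.symm
  have hvV : v ∈ V := by
    have h1 : v = ((Z⁻¹ : A) : Ω) * a := by
      rw [← hc.eqZ]
      have h2 : ((Z⁻¹ : A) : Ω) * (Z : Ω) = 1 :=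
        congrArg (fun x : A => (x : Ω)) (inv_mul_cancel₀ hc.Z0)
      rw [← mul_assoc, h2, one_mul]
    rw [h1]
    exact mul_mem (hP.mem _ (Z⁻¹ : A).2) haV
  obtain ⟨hT, hr⟩ := res_of_lt hP ht hi
  have hst : s i t ∈ V := by
    rw [hG.st]
    exact hT
  have hr' : r ⟨s i t, hst⟩ = r ⟨t, ht⟩ := by
    rw [← hr]
    congr 1
    exact Subtype.ext (hG.st i)
  obtain ⟨h1, h2⟩ := frac_res_eq hP hH hc.tH ht hc.vt hvV (hG.sH i) hst hr'
  have h3 := hψ.eq Z (hψ.mem Z)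
  have h4 : (⟨ξ i Z, hψ.mem Z⟩ * ⟨s i v, h1⟩ : V) = ⟨a, haV⟩ ^ (p ^ n) := by
    apply Subtype.ext
    change ξ i Z * s i v = a ^ (p ^ n)
    rw [hG.ξZ, div_mul_cancel₀ _ (hG.sv i)]
  have h5 : (⟨(Z : Ω), hP.mem _ Z.2⟩ * ⟨v, hvV⟩ : V) = ⟨a, haV⟩ := Subtype.ext hc.eqZ
  have h6 := congrArg r h4
  have h7 := congrArg r h5
  rw [map_mul, h3, h2, map_pow] at h6
  rw [map_mul, hP.res.fix _ _ Z.2] at h7
  obtain ⟨d, hd⟩ := hc.en
  have hpn : 0 < p ^ n := pow_pos hc.pp.pos n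
  have hdd : (p ^ n - 1) / e = d := by
    rw [hd]
    exact Nat.mul_div_cancel_left d (Nat.pos_of_ne_zero he)
  have h8 : r ⟨a, haV⟩ ^ (p ^ n) = ((c : Ω) ^ p - c) ^ d * r ⟨a, haV⟩ := by
    have h9 : p ^ n = e * d + 1 := by omega
    rw [h9, pow_succ, pow_mul, hra]
  apply Subtype.ext
  rw [hdd]
  change ((ψ Z : A) : Ω) = ((c : Ω) ^ p - c) ^ d * (Z : Ω)
  have hrv : r ⟨v, hvV⟩ ≠ 0 := by
    intro h0
    rw [h0, mul_zero] at h7
    exact ha0 h7.symm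
  apply mul_right_cancel₀ hrv
  rw [h6, h8, mul_assoc, h7]

end

end Pool.Agent.FRJ
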