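import Pool.Agent.FRJ.J5
import Pool.Agent.FRB.M5b

/-!
# The distances of the roots (template FRB/M5b)
-/

set_option autoImplicit false

namespace Pool.Agent.FRJ

open Polynomial Pool.Agent.TBR Pool.Agent.TUQ Pool.Agent.WLD Pool.Agent.FRB

universe u

section

variable {k Ω : Type u} [Field k] [Field Ω] [Algebra k Ω]
variable {A H : IntermediateField k Ω} {V : ValuationSubring Ω} {r : V →+* Ω}
variable {K₀ : IntermediateField k A} {Z : A} {p e n : ℕ} {v a U t : Ω}
variable {A₁ A₂ : H[X]} {m : ℕ} {T : Fin m → Ω}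
  {s : Fin m → (Ω ≃ₐ[k] Ω)} {ξ : Fin m → (A →ₐ[k] Ω)} {f : Polynomial Ω}

/-- `A₁ / A₂` at the roots -/
theorem GDJ.sy_eq (hG : GDJ A H K₀ Z p e n v a U t A₁ A₂ T s ξ f) (i : Fin m) :
    U ^ (p ^ n) * aeval (T i) A₂ = aeval (T i) A₁ := by
  have h := congrArg (s i) hG.yeq
  rw [map_mul, Fx_aeval H (hG.sH i), Fx_aeval H (hG.sH i), hG.st, hG.sU] at h
  exact h

/-- the values of `A₁ / A₂` are not a constant in the field with `p ^ n` elements -/
theorem GDJ.sub_ne (hG : GDJ A H K₀ Z p e n v a U t A₁ A₂ T s ξ f) (b : H)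
    (hb : b ^ (p ^ n) = b) : A₁ - C b * A₂ ≠ 0 := by
  intro h0
  have h1 : A₁ = C b * A₂ := sub_eq_zero.1 h0
  have h2 : U = b := by
    have h3 := hG.yeq
    rw [h1, map_mul, aeval_C] at h3
    exact mul_right_cancel₀ hG.A₂t h3
  have hbΩ : (b : Ω) ^ (p ^ n) = b := congrArg (fun x : H => (x : Ω)) hb
  apply hG.f0
  rw [hG.fdef, h2, hbΩ, h1, Polynomial.map_mul, map_C]
  have h4 : algebraMap H Ω b = (b : Ω) := rfl
  rw [h4, sub_self]

/-- the distance of a root near `t` to `T₀` -/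
theorem GDJ.val_root [IsAlgClosed H] (hc : CfJ A H K₀ Z p e n v a U t)
    (hG : GDJ A H K₀ Z p e n v a U t A₁ A₂ T s ξ f)
    (hP : Plc A V r) (hH : ∀ x ∈ H, x ∈ V) (ht : t ∈ V) (T₀ : H)
    (h0 : rho r hH T₀ = r ⟨t, ht⟩) (i : Fin m) (hi : V.valuation (T i - t) < 1) :
    V.valuation (T i - T₀) = V.valuation (t - T₀) ^ (p ^ n) := by
  have := hc.ch
  have : CharP Ω p := (Algebra.charP_iff k Ω p).1 hc.ch
  have : Fact p.Prime := ⟨hc.pp⟩
  obtain ⟨hTV, hTr⟩ := res_of_lt hP ht hi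
  have h0' : rho r hH T₀ = r ⟨T i, hTV⟩ := by rw [hTr, h0]
  by_cases hA₂ : A₂.eval T₀ = 0
  · -- the pole
    have hA₁0 : A₁.eval T₀ ≠ 0 := by
      intro h
      obtain ⟨p, q, hpq⟩ := hG.cop
      have := congrArg (eval T₀) hpq
      rw [eval_add, eval_mul, eval_mul, h, hA₂, mul_zero, mul_zero, add_zero, eval_one] at this
      exact zero_ne_one this
    obtain ⟨P₀, hP₁, hP₂⟩ := exists_eq_pow_rootMultiplicity_mul_and_not_dvd A₂ hG.A₂0 T₀
    rw [dvd_iff_isRoot, IsRoot.def] at hP₂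
    set j := A₂.rootMultiplicity T₀ with hj
    have hj0 : j ≠ 0 := ((rootMultiplicity_pos hG.A₂0).2 hA₂).ne'
    have g1 := hG.sy_eq i
    have g2 := hG.yeq
    have h1 := congrArg V.valuation g1
    have h2 := congrArg V.valuation g2
    rw [map_mul, fac_at A₂ P₀ T₀ j hP₁, map_mul, map_pow, unit_at hP hH hTV T₀ h0' P₀ hP₂,
      unit_at hP hH hTV T₀ h0' A₁ hA₁0, mul_one, map_pow] at h1
    rw [map_mul, fac_at A₂ P₀ T₀ j hP₁, map_mul, map_pow, unit_at hP hH ht T₀ h0 P₀ hP₂,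
      unit_at hP hH ht T₀ h0 A₁ hA₁0, mul_one] at h2
    have h3 : V.valuation U ≠ 0 := left_ne_zero_of_mul_eq_one h2
    have h4 := congrArg (fun x => x ^ (p ^ n)) h2
    simp only [mul_pow, one_pow] at h4
    have h5 := mul_left_cancel₀ (pow_ne_zero _ h3) (h1.trans h4.symm)
    rw [← pow_mul, mul_comm, pow_mul] at h5
    exact (pow_left_inj₀ zero_le zero_le hj0).1 h5
  · -- a finite value
    set b : H := A₁.eval T₀ / A₂.eval T₀ with hb
    have hbA : A₁.eval T₀ = b * A₂.eval T₀ := (div_mul_cancel₀ _ hA₂).symm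
    have hyV : U ∈ V := by
      have h1 := congrArg V.valuation hG.yeq
      rw [map_mul, unit_at hP hH ht T₀ h0 A₂ hA₂, mul_one] at h1
      rw [val_le, h1, ← val_le]
      exact aeval_memV hH A₁ ht
    have hr1 : r ⟨U, hyV⟩ = rho r hH b := by
      have h1 : (⟨U, hyV⟩ * ⟨aeval t A₂, aeval_memV hH A₂ ht⟩ : V) =
          ⟨aeval t A₁, aeval_memV hH A₁ ht⟩ := Subtype.ext hG.yeq
      have h2 := congrArg r h1
      rw [map_mul, res_at hH ht T₀ h0, res_at hH ht T₀ h0, hbA, map_mul] at h2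
      exact mul_right_cancel₀ ((_root_.map_ne_zero _).2 hA₂) h2
    have hbq : b ^ (p ^ n) = b := by
      have h1 := hG.res_y hc hP hH ht hyV i hi
      rw [hr1, ← map_pow] at h1
      exact (rho r hH).injective h1
    have hbΩ : (b : Ω) ^ (p ^ n) = b := congrArg (fun x : H => (x : Ω)) hbq
    have hD := hG.sub_ne b hbq
    set D : H[X] := A₁ - C b * A₂ with hDd
    have hD0 : D.eval T₀ = 0 := by
      rw [hDd, eval_sub, eval_mul, eval_C, hbA, sub_self]
    obtain ⟨P₀, hP₁, hP₂⟩ := exists_eq_pow_rootMultiplicity_mul_and_not_dvd D hD T₀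
    rw [dvd_iff_isRoot, IsRoot.def] at hP₂
    set j := D.rootMultiplicity T₀ with hj
    have hj0 : j ≠ 0 := ((rootMultiplicity_pos hD).2 hD0).ne'
    have hDx : ∀ x : Ω, aeval x D = aeval x A₁ - b * aeval x A₂ := by
      intro x
      rw [hDd, map_sub, map_mul, aeval_C]
      rfl
    have e1 : (U - b) * aeval t A₂ = aeval t D := by
      rw [hDx, ← hG.yeq]
      ring
    have e2 : (U - b) ^ (p ^ n) * aeval (T i) A₂ = aeval (T i) D := by
      rw [hDx, ← hG.sy_eq i, sub_pow_char_pow, hbΩ]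
      ring
    have h1 := congrArg V.valuation e2
    have h2 := congrArg V.valuation e1
    rw [map_mul, fac_at D P₀ T₀ j hP₁, map_mul, map_pow, unit_at hP hH hTV T₀ h0' P₀ hP₂,
      unit_at hP hH hTV T₀ h0' A₂ hA₂, mul_one, mul_one, map_pow] at h1
    rw [map_mul, fac_at D P₀ T₀ j hP₁, map_mul, map_pow, unit_at hP hH ht T₀ h0 P₀ hP₂,
      unit_at hP hH ht T₀ h0 A₂ hA₂, mul_one, mul_one] at h2
    rw [h2, ← pow_mul, mul_comm, pow_mul] at h1
    exact ((pow_left_inj₀ zero_le zero_le hj0).1 h1).symm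

/-- all `T i - t` which are in the maximal ideal have the order of `t - T₀`, where `T₀ ∈ H` is the
point with the residue of `t` -/
theorem GDJ.val_eq_lam [IsAlgClosed H] (hc : CfJ A H K₀ Z p e n v a U t)
    (hG : GDJ A H K₀ Z p e n v a U t A₁ A₂ T s ξ f)
    (hP : Plc A V r) (hH : ∀ x ∈ H, x ∈ V) (ht : t ∈ V) (T₀ : H)
    (h0 : rho r hH T₀ = r ⟨t, ht⟩) (i : Fin m) (hi : V.valuation (T i - t) < 1) :
    V.valuation (T i - t) = V.valuation (t - T₀) := by
  have h1 := hG.val_root hc hP hH ht T₀ h0 i hi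
  have h2 := lam_lt hP hH ht T₀ h0
  have h3 : 0 < V.valuation (t - T₀) :=
    zero_lt_iff.2 ((_root_.map_ne_zero _).2 (lam_ne hc.tH T₀))
  have hq : 1 < p ^ n := Nat.one_lt_pow hc.n0.ne' hc.pp.one_lt
  have h4 : V.valuation (T i - T₀) < V.valuation (t - T₀) := by
    rw [h1]
    exact pow_lt_self_of_lt_one₀ h3 h2 hq
  have h5 : T i - t = (T i - T₀) - (t - T₀) := by ring
  rw [h5]
  exact Valuation.map_sub_eq_of_lt_right _ h4

theorem GDJ.val_near [IsAlgClosed H] (hc : CfJ A H K₀ Z p e n v a U t) (hCP : CP A H K₀ t)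
    (hG : GDJ A H K₀ Z p e n v a U t A₁ A₂ T s ξ f)
    (hP : Plc A V r) (hH : ∀ x ∈ H, x ∈ V) (i j : Fin m)
    (hi : V.valuation (T i - t) < 1) (hj : V.valuation (T j - t) < 1) :
    V.valuation (T i - t) = V.valuation (T j - t) := by
  have ht := hCP.t_mem hP hH
  obtain ⟨T₀, h0⟩ := exists_liftH hP hH hc.tdA hc.tdH (r ⟨t, ht⟩) (hP.res.mem _)
  rw [hG.val_eq_lam hc hP hH ht T₀ h0 i hi, hG.val_eq_lam hc hP hH ht T₀ h0 j hj]

open Classical in
/-- at the places with `U = b`, `b` in the field with `p ^ n` elements, the product of the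
`T i - t` in the maximal ideal has the order of `U - c` -/
theorem GDJ.val_prod [IsAlgClosed Ω] [IsAlgClosed H] [IsAlgClosed A]
    (hc : CfJ A H K₀ Z p e n v a U t) (hCP : CP A H K₀ t)
    (hG : GDJ A H K₀ Z p e n v a U t A₁ A₂ T s ξ f)
    (hP : Plc A V r) (hH : ∀ x ∈ H, x ∈ V) (c : A) (hcq : c ^ (p ^ n) = c)
    (hy : V.valuation (U - c) < 1) :
    V.valuation (∏ i, if (∀ x, ξ i x ∈ V) ∧ V.valuation (T i - t) ≠ 1 then T i - t else 1) =
      V.valuation (U - c) := by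
  have ht := hCP.t_mem hP hH
  obtain ⟨T₀, h0⟩ := exists_liftH hP hH hc.tdA hc.tdH (r ⟨t, ht⟩) (hP.res.mem _)
  have hq : 1 < p ^ n := Nat.one_lt_pow hc.n0.ne' hc.pp.one_lt
  have hbΩ : (c : Ω) ^ (p ^ n) = c := congrArg (fun x : A => (x : Ω)) hcq
  have hbH : (c : Ω) ∈ H := by
    refine s_mem_of_alg H _ ⟨X ^ (p ^ n) - X, ?_, ?_⟩
    · exact FiniteField.X_pow_card_sub_X_ne_zero k hq
    · rw [map_sub, map_pow, aeval_X, hbΩ, sub_self]
  set b' : H := ⟨c, hbH⟩ with hb'
  have hb'q : b' ^ (p ^ n) = b' := Subtype.ext hbΩ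
  have hbV : (c : Ω) ∈ V := hP.mem _ c.2
  have hyV : U ∈ V := by
    have := add_mem ((val_le V _).2 hy.le) hbV
    rwa [sub_add_cancel] at this
  have hry : r ⟨U, hyV⟩ = c := by
    rw [(hP.res.eq_of_sub hP.mem hyV hbV).2 hy, hP.res.fix _ _ c.2]
  have hrb : rho r hH b' = c := hP.res.fix _ _ c.2
  have hA₂ : A₂.eval T₀ ≠ 0 := by
    intro hA₂
    have hA₁0 : A₁.eval T₀ ≠ 0 := by
      intro h
      obtain ⟨p, q, hpq⟩ := hG.cop
      have := congrArg (eval T₀) hpq
      rw [eval_add, eval_mul, eval_mul, h, hA₂, mul_zero, mul_zero, add_zero, eval_one] at this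
      exact zero_ne_one this
    have h1 : (⟨U, hyV⟩ * ⟨aeval t A₂, aeval_memV hH A₂ ht⟩ : V) =
        ⟨aeval t A₁, aeval_memV hH A₁ ht⟩ := Subtype.ext hG.yeq
    have h2 := congrArg r h1
    rw [map_mul, res_at hH ht T₀ h0, res_at hH ht T₀ h0, hA₂, map_zero, mul_zero] at h2
    exact hA₁0 ((_root_.map_eq_zero _).1 h2.symm)
  have hD := hG.sub_ne b' hb'q
  set D : H[X] := A₁ - C b' * A₂ with hDd
  have hDt : (U - c) * aeval t A₂ = aeval t D := by
    have h1 : aeval t D = aeval t A₁ - c * aeval t A₂ := by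
      rw [hDd, map_sub, map_mul, aeval_C]
      rfl
    rw [h1, ← hG.yeq]
    ring
  obtain ⟨P₀, hP₁, hP₂⟩ := exists_eq_pow_rootMultiplicity_mul_and_not_dvd D hD T₀
  rw [dvd_iff_isRoot, IsRoot.def] at hP₂
  have hval : V.valuation (U - c) = V.valuation (t - T₀) ^ D.rootMultiplicity T₀ := by
    have h1 := congrArg V.valuation hDt
    rwa [map_mul, fac_at D P₀ T₀ _ hP₁, map_mul, map_pow, unit_at hP hH ht T₀ h0 P₀ hP₂,
      unit_at hP hH ht T₀ h0 A₂ hA₂, mul_one, mul_one] at h1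
  -- the reduction of `f`
  let F : V[X] := A₁.map (jH hH) - C (⟨U, hyV⟩ ^ (p ^ n)) * A₂.map (jH hH)
  have hFΩ : F.map (algebraMap V Ω) = f := by
    rw [hG.fdef, Polynomial.map_sub, Polynomial.map_mul, map_C, map_map, map_map]
    rfl
  have hFr : F.map r = D.map (rho r hH) := by
    rw [hDd, Polynomial.map_sub, Polynomial.map_mul, map_C, map_map, map_map, map_pow, hry, hbΩ,
      Polynomial.map_sub, Polynomial.map_mul, map_C, hrb]
    rfl
  have hFr0 : F.map r ≠ 0 := by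
    rw [hFr, Ne, Polynomial.map_eq_zero_iff (rho r hH).injective]
    exact hD
  obtain ⟨S, hS₁, hS₂⟩ := roots_map hP.res hP.mem F hFr0
  rw [hFΩ] at hS₁
  have hnear : ∀ x : V, V.valuation ((x : Ω) - t) < 1 ↔ rho r hH T₀ = r x := by
    intro x
    rw [h0, ← hP.res.eq_of_sub hP.mem x.2 ht]
    exact eq_comm
  have hcount : (Finset.univ.filter fun i => V.valuation (T i - t) < 1).card =
      D.rootMultiplicity T₀ := by
    have h1 : (Finset.univ.filter fun i => V.valuation (T i - t) < 1).card =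
        Multiset.card (f.roots.filter fun x => V.valuation (x - t) < 1) := by
      rw [hG.roots, Multiset.filter_map, Multiset.card_map]
      rfl
    have h2 : (f.roots.filter fun x => V.valuation (x - t) < 1) =
        (f.roots.filter (· ∈ V)).filter fun x => V.valuation (x - t) < 1 := by
      rw [Multiset.filter_filter]
      refine Multiset.filter_congr fun x _ => ?_
      constructor
      · intro h
        exact ⟨h, (res_of_lt hP ht h).1⟩
      · exact fun h => h.1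
    rw [h1, h2, hS₁, Multiset.filter_map, Multiset.card_map, eq_rootMultiplicity_map
      (rho r hH).injective T₀, ← count_roots, ← hFr, hS₂, Multiset.count_map]
    congr 1
    refine Multiset.filter_congr fun x _ => ?_
    exact hnear x
  rw [hval, ← hcount, map_prod, Finset.prod_congr rfl (fun i _ => ?_ : ∀ i ∈ Finset.univ, _ =
    if V.valuation (T i - t) < 1 then V.valuation (t - T₀) else 1), Finset.prod_ite,
    Finset.prod_const, Finset.prod_const, one_pow, mul_one]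
  rw [apply_ite V.valuation, map_one]
  by_cases hi : V.valuation (T i - t) < 1
  · rw [if_pos ((hG.idx_iff hc hCP hP hH i).2 hi), if_pos hi]
    exact hG.val_eq_lam hc hP hH ht T₀ h0 i hi
  · rw [if_neg fun h => hi ((hG.idx_iff hc hCP hP hH i).1 h), if_neg hi]

end

end Pool.Agent.FRJ
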