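import Pool.Agent.FRJ.J3
import Pool.Agent.FRB.M6

/-!
# Inertia (template FRB/M6)
-/

set_option autoImplicit false

namespace Pool.Agent.FRJ

open Polynomial Pool.Agent.TBR Pool.Agent.TUQ Pool.Agent.WLD Pool.Agent.FRB

universe u

section

variable {k Ω : Type u} [Field k] [Field Ω] [Algebra k Ω]
variable {A H : IntermediateField k Ω} {V : ValuationSubring Ω} {r : V →+* Ω}
variable {K₀ : IntermediateField k A} {Z : A} {p e n : ℕ} {v a U t : Ω}

/-- the inertia at `a = ∞` -/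
theorem CfJ.exists_inf [IsAlgClosed Ω] [IsAlgClosed H] [IsAlgClosed A]
    (hc : CfJ A H K₀ Z p e n v a U t) (hP : Plc A V r) (hH : ∀ x ∈ H, x ∈ V) (ha : a ∉ V)
    (ζ : Ω) (hζ : ζ ^ e = 1) :
    ∃ σ ∈ Fx k (H : Set Ω), σ a = ζ * a ∧ σ U = U ∧ (∀ x, σ x ∈ V ↔ x ∈ V) ∧
      ∀ (x : Ω) (h : x ∈ V) (h' : σ x ∈ V), r ⟨σ x, h'⟩ = r ⟨x, h⟩ := by
  have hα : 1 < V.valuation a := not_le.1 fun h => ha ((V.valuation_le_one_iff _).1 h)
  have hC := hc.toC
  obtain ⟨q, m, hq, -, -, hQ, hqe⟩ := hC.ad.exists_p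
  have hcop : Nat.Coprime (X ^ p - X : k[X]).natDegree e := by
    rw [hQ]
    exact Nat.Coprime.pow_left m (hq.coprime_iff_not_dvd.2 hqe)
  have he : e ≠ 0 := by
    have := hC.ad.e2
    omega
  have hd : (X ^ p - X : k[X]).natDegree ≠ 0 := by
    have := hC.ad.deg
    omega
  have hv1 : 1 < V.valuation (aeval U ((X ^ p - X : k[X]).map (algebraMap k H))) := by
    rw [aeval_map_algebraMap, hC.eqU, map_pow]
    exact one_lt_pow₀ hα he
  obtain ⟨h1, hU1⟩ := val_root_inf H V hH ((X ^ p - X : k[X]).map (algebraMap k H)) U hv1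
  rw [natDegree_map, aeval_map_algebraMap, hC.eqU] at h1
  have hUH : U ∉ H := fun h => absurd ((V.valuation_le_one_iff _).2 (hH U h)) (not_le.2 hU1)
  have hyU : a ^ e ∈ AA H {U} := by
    rw [← hc.eqU]
    exact sub_mem (pow_mem (self_mem_AA H U) p) (self_mem_AA H U)
  obtain ⟨σ, hσH, h2, h3, hσV⟩ := exists_ram hH U a (ζ * a) (a ^ e) hU1 (hc.trH U hUH)
    hyU (X ^ e : H[X]) (X ^ p - X : k[X]).natDegree hd (by rwa [natDegree_X_pow])
    (by rw [map_pow, aeval_X])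
    (by rw [map_pow, aeval_X, mul_pow, hζ, one_mul])
    h1.symm
  exact ⟨σ, hσH, h3, h2, hσV, fun x h h' => res_fix hP hH hc.tdA hc.tdH σ hσH hσV x h h'⟩

/-- the inertia at `a = 0` -/
theorem CfJ.exists_zero [IsAlgClosed Ω] [IsAlgClosed H] [IsAlgClosed A]
    (hc : CfJ A H K₀ Z p e n v a U t) (hP : Plc A V r) (hH : ∀ x ∈ H, x ∈ V)
    (ha : V.valuation a < 1) (ζ : Ω) (hζ : ζ ^ e = 1) :
    ∃ σ ∈ Fx k (H : Set Ω), σ a = ζ * a ∧ σ U = U ∧ (∀ x, σ x ∈ V ↔ x ∈ V) ∧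
      ∀ (x : Ω) (h : x ∈ V) (h' : σ x ∈ V), r ⟨σ x, h'⟩ = r ⟨x, h⟩ := by
  have hC := hc.toC
  have he : e ≠ 0 := by
    have := hc.e2
    omega
  have ha0 := hc.a0
  have hp2 := hc.pp.two_le
  have hae : V.valuation (a ^ e) < 1 := by
    rw [map_pow]
    exact pow_lt_one₀ zero_le ha he
  -- `U` is in `V`
  have hU : U ∈ V := by
    by_contra h
    rw [← V.valuation_le_one_iff, not_le] at h
    have h1 : V.valuation (U ^ p) ≤ V.valuation U := by
      have h2 : U ^ p = U + a ^ e := by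
        rw [← hc.eqU]
        ring
      rw [h2]
      exact (V.valuation.map_add _ _).trans (max_le le_rfl (hae.trans h).le)
    rw [map_pow] at h1
    exact absurd h1 (not_le.2 (lt_self_pow₀ h (by omega)))
  -- the residue of `U`
  set c : Ω := r ⟨U, hU⟩ with hcdef
  have hcA : c ∈ A := hP.res.mem _
  have hcp : c ^ p = c := by
    have h1 : c ^ p - c = r ⟨U ^ p - U, sub_mem (pow_mem hU p) hU⟩ := by
      rw [hcdef, ← map_pow, ← map_sub]
      rfl
    have h2 : r ⟨U ^ p - U, sub_mem (pow_mem hU p) hU⟩ = 0 := by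
      rw [hP.res.zero_iff hP.mem]
      change V.valuation (U ^ p - U) < 1
      rw [hc.eqU]
      exact hae
    rw [h2] at h1
    exact sub_eq_zero.1 h1
  have hcφ : aeval c (X ^ p - X : k[X]) = 0 := by
    rw [map_sub, map_pow, aeval_X, hcp, sub_self]
  have hcH : c ∈ H := s_mem_of_alg H c ⟨X ^ p - X, hC.ad.ne_zero, hcφ⟩
  have hUc : V.valuation (U - c) < 1 :=
    (hP.res.eq_of_sub hP.mem hU (hP.mem c hcA)).1 (hP.res.fix _ _ hcA).symm
  -- the parameter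
  have hu : (U - c) ^ p - (U - c) = a ^ e := by
    have h1 := add_sub' hC.ad.add U c
    rw [hcφ, hC.eqU, sub_zero, map_sub, map_pow, aeval_X] at h1
    exact h1
  set u : Ω := U - c with hudef
  have hu0 : u ≠ 0 := by
    intro h0
    rw [h0, zero_pow hc.pp.ne_zero, sub_zero] at hu
    exact pow_ne_zero e ha0 hu.symm
  have hvu0 : 0 < V.valuation u := zero_lt_iff.2 ((_root_.map_ne_zero _).2 hu0)
  have hvu : V.valuation (a ^ e) = V.valuation u := by
    rw [← hu]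
    refine Valuation.map_sub_eq_of_lt_right _ ?_
    rw [map_pow]
    exact pow_lt_self_of_lt_one₀ hvu0 hUc (by omega)
  have hα : 1 < V.valuation u⁻¹ := by
    rw [map_inv₀]
    exact (one_lt_inv₀ hvu0).2 hUc
  have hαH : u⁻¹ ∉ H := fun h => absurd ((V.valuation_le_one_iff _).2 (hH _ h)) (not_le.2 hα)
  have huE : u ∈ AA H {u⁻¹} := by
    have h1 := inv_mem (self_mem_AA H u⁻¹)
    rwa [inv_inv] at h1
  have hyE : (a ^ e)⁻¹ ∈ AA H {u⁻¹} := by
    rw [← hu]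
    exact inv_mem (sub_mem (pow_mem huE p) huE)
  obtain ⟨σ, hσH, h2, h3, hσV⟩ := exists_ram hH u⁻¹ a⁻¹ (ζ⁻¹ * a⁻¹) (a ^ e)⁻¹ hα
    (hc.trH _ hαH) hyE (X ^ e : H[X]) 1 one_ne_zero (Nat.coprime_one_left _)
    (by rw [map_pow, aeval_X, inv_pow])
    (by rw [map_pow, aeval_X, mul_pow, inv_pow, inv_pow, hζ, inv_one, one_mul])
    (by rw [map_inv₀, map_inv₀, hvu, pow_one])
  rw [map_inv₀] at h2 h3
  refine ⟨σ, hσH, ?_, ?_, hσV, fun x h h' => res_fix hP hH hc.tdA hc.tdH σ hσH hσV x h h'⟩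
  · rw [← inv_inj, h3, mul_inv]
  · have h4 := inv_inj.1 h2
    rw [hudef, map_sub, hσH c hcH] at h4
    exact sub_left_injective h4

end

end Pool.Agent.FRJ
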