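import Pool.Agent.FRJ.J5b
import Pool.Agent.FRJ.J6
import Pool.Agent.FRB.M6c

/-!
# The local statements at the places which contain `H` (template FRB/M6c)
-/

set_option autoImplicit false

namespace Pool.Agent.FRJ

open Polynomial Pool.Agent.TBR Pool.Agent.TUQ Pool.Agent.WLD Pool.Agent.FRB

universe u

section

variable {k Ω : Type u} [Field k] [Field Ω] [Algebra k Ω]
variable {A H : IntermediateField k Ω} {V : ValuationSubring Ω} {r : V →+* Ω}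
variable {K₀ : IntermediateField k A} {Z : A} {p e n : ℕ} {v a U t : Ω}
variable {A₁ A₂ : H[X]} {m : ℕ} {T : Fin m → Ω}
  {s : Fin m → (Ω ≃ₐ[k] Ω)} {ξ : Fin m → (A →ₐ[k] Ω)} {f : Polynomial Ω}

/-- the action of an inertia element on the embeddings near `t` -/
theorem GDJ.inertia [IsAlgClosed Ω] [IsAlgClosed H] [IsAlgClosed A]
    (hc : CfJ A H K₀ Z p e n v a U t) (hCP : CP A H K₀ t)
    (hG : GDJ A H K₀ Z p e n v a U t A₁ A₂ T s ξ f)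
    (hP : Plc A V r) (hH : ∀ x ∈ H, x ∈ V) (ζ : A) (hζ : ζ ^ e = 1)
    (σ : Ω ≃ₐ[k] Ω) (hσH : σ ∈ Fx k (H : Set Ω)) (hσa : σ a = ζ * a) (hσU : σ U = U)
    (hσV : ∀ x, σ x ∈ V ↔ x ∈ V)
    (hσr : ∀ (x : Ω) (h : x ∈ V) (h' : σ x ∈ V), r ⟨σ x, h'⟩ = r ⟨x, h⟩) :
    ∃ π : Equiv.Perm (Fin m),
      ∀ (i : {i : Fin m // (∀ x, ξ i x ∈ V) ∧ V.valuation (T i - t) ≠ 1}) (ψ : A ≃ₐ[k] A),
        ResE A V r (ξ i) ψ →
        V.valuation (T (π i) - t) < 1 ∧ ∀ ψ', ResE A V r (ξ (π i)) ψ' → ψ Z = ζ * ψ' Z := by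
  have ht := hCP.t_mem hP hH
  have hpn : 0 < p ^ n := pow_pos hc.pp.pos n
  have hζΩ : (ζ : Ω) ^ e = 1 := by
    have h1 := congrArg (fun x : A => (x : Ω)) hζ
    exact h1
  obtain ⟨π, hπ⟩ := hG.perm σ hσH hσU
  refine ⟨π, fun i ψ hψ => ?_⟩
  have hlt : V.valuation (T i - t) < 1 := (hG.idx_iff hc hCP hP hH i).1 i.2
  obtain ⟨hTV, hTr⟩ := res_of_lt hP ht hlt
  have hT2 : T (π i) ∈ V := by
    rw [← hπ, hσV]
    exact hTV
  refine ⟨?_, fun ψ' hψ' => ?_⟩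
  · refine (hP.res.eq_of_sub hP.mem hT2 ht).1 ?_
    rw [← hTr, ← hσr (T i) hTV ((hσV _).2 hTV)]
    congr 1
    exact Subtype.ext (hπ i).symm
  · obtain ⟨-, h2⟩ := hG.conj hc σ hσH i (π i) (hπ i)
    rw [hσa, mul_div_cancel_right₀ _ hc.a0, root_iter hpn hζΩ hc.en] at h2
    have hmZ : ξ i Z ∈ V := i.2.1 Z
    have hZe := hψ'.eq Z (hψ'.mem Z)
    have h4 : (⟨σ (ξ i Z), (hσV _).2 hmZ⟩ : V) =
        ⟨(ζ : Ω), hP.mem _ ζ.2⟩ * ⟨ξ (π i) Z, hψ'.mem Z⟩ := Subtype.ext h2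
    have h5 := hσr (ξ i Z) hmZ ((hσV _).2 hmZ)
    rw [h4, map_mul, hZe, hP.res.fix _ _ ζ.2, hψ.eq Z hmZ] at h5
    exact Subtype.ext h5.symm

/-- the residues are permuted if there are enough inertia elements -/
theorem GDJ.perm_of_inertia [IsAlgClosed Ω] [IsAlgClosed H] [IsAlgClosed A]
    (hc : CfJ A H K₀ Z p e n v a U t) (hCP : CP A H K₀ t)
    (hG : GDJ A H K₀ Z p e n v a U t A₁ A₂ T s ξ f)
    (hP : Plc A V r) (hH : ∀ x ∈ H, x ∈ V)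
    (hI : ∀ ζ : A, ζ ^ e = 1 →
      ∃ σ ∈ Fx k (H : Set Ω), σ a = ζ * a ∧ σ U = U ∧ (∀ x, σ x ∈ V ↔ x ∈ V) ∧
        ∀ (x : Ω) (h : x ∈ V) (h' : σ x ∈ V), r ⟨σ x, h'⟩ = r ⟨x, h⟩)
    (g : A ≃ₐ[k] A) (hg : g ∈ Fx k (K₀ : Set A)) :
    ∃ π : Equiv.Perm {i : Fin m // (∀ x, ξ i x ∈ V) ∧ V.valuation (T i - t) ≠ 1},
        ∀ i, V.valuation (T (π i) - t) = V.valuation (T i - t) ∧
          ∀ ψ ψ', ResE A V r (ξ i) ψ → ResE A V r (ξ (π i)) ψ' →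
            ∀ x ∈ KZ K₀ Z, g (ψ x) = ψ' x := by
  classical
  have ht := hCP.t_mem hP hH
  have hlt : ∀ i : {i : Fin m // (∀ x, ξ i x ∈ V) ∧ V.valuation (T i - t) ≠ 1},
      V.valuation (T i - t) < 1 := fun i => (hG.idx_iff hc hCP hP hH i).1 i.2
  have htd : Algebra.trdeg k A < Cardinal.aleph0 := by
    rw [hc.tdA]
    exact Cardinal.natCast_lt_aleph0
  choose ψ hψ using fun i : {i : Fin m // (∀ x, ξ i x ∈ V) ∧ V.valuation (T i - t) ≠ 1} =>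
    exists_resE_F A htd V r hP (ξ i) i.2.1
  have hK : ∀ (i : {i : Fin m // (∀ x, ξ i x ∈ V) ∧ V.valuation (T i - t) ≠ 1}), ∀ x ∈ K₀,
      ψ i x = x := fun i x hx => hG.psi_K₀ hc hP hH ht i (hlt i) (ψ i) (hψ i) x hx
  have hψZ : ∀ i, ψ i Z ≠ 0 := fun i => (_root_.map_ne_zero _).2 hc.Z0
  have hgZ : ∀ i, g (ψ i Z) ≠ 0 := fun i => (_root_.map_ne_zero _).2 (hψZ i)
  have hz0 : ∀ i, (ψ i Z / g (ψ i Z)) ^ e = 1 := by
    intro i
    have h1 : (ψ i Z) ^ e = Z ^ e := by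
      rw [← map_pow]
      exact hK i _ hc.ZK
    have h2 : (g (ψ i Z)) ^ e = Z ^ e := by
      rw [← map_pow, h1]
      exact hg _ hc.ZK
    rw [div_pow, h1, h2, div_self (pow_ne_zero _ hc.Z0)]
  -- the inertia elements
  have hτ : ∀ ζ : A, ∃ π : Equiv.Perm (Fin m), ζ ^ e = 1 →
      ∀ (i : {i : Fin m // (∀ x, ξ i x ∈ V) ∧ V.valuation (T i - t) ≠ 1}) (ψ : A ≃ₐ[k] A),
        ResE A V r (ξ i) ψ →
        V.valuation (T (π i) - t) < 1 ∧ ∀ ψ', ResE A V r (ξ (π i)) ψ' → ψ Z = ζ * ψ' Z := by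
    intro ζ
    by_cases h3 : ζ ^ e = 1
    swap
    · exact ⟨1, fun h => absurd h h3⟩
    obtain ⟨σ, hσH, hσa, hσU, hσV, hσr⟩ := hI ζ h3
    obtain ⟨π, hπ⟩ := hG.inertia hc hCP hP hH ζ h3 σ hσH hσa hσU hσV hσr
    exact ⟨π, fun _ => hπ⟩
  choose Pf hPf using hτ
  have hPf' : ∀ i : {i : Fin m // (∀ x, ξ i x ∈ V) ∧ V.valuation (T i - t) ≠ 1},
      V.valuation (T (Pf (ψ i Z / g (ψ i Z)) i) - t) < 1 ∧
      ∀ ψ', ResE A V r (ξ (Pf (ψ i Z / g (ψ i Z)) i)) ψ' →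
          ψ i Z = (ψ i Z / g (ψ i Z)) * ψ' Z :=
    fun i => hPf _ (hz0 i) i (ψ i) (hψ i)
  -- the permutation
  let F : {i : Fin m // (∀ x, ξ i x ∈ V) ∧ V.valuation (T i - t) ≠ 1} →
      {i : Fin m // (∀ x, ξ i x ∈ V) ∧ V.valuation (T i - t) ≠ 1} := fun i =>
    ⟨Pf (ψ i Z / g (ψ i Z)) i, (hG.idx_iff hc hCP hP hH _).2 (hPf' i).1⟩
  have hFZ : ∀ i, ψ (F i) Z = g (ψ i Z) := by
    intro i
    have h1 := (hPf' i).2 (ψ (F i)) (hψ (F i))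
    rw [div_mul_eq_mul_div, eq_div_iff (hgZ i)] at h1
    exact (mul_left_cancel₀ (hψZ i) h1).symm
  have hinj : Function.Injective F := by
    intro i j hij
    have h1' : ψ i Z = ψ j Z := by
      apply g.injective
      rw [← hFZ, ← hFZ, hij]
    have h2 := congrArg Subtype.val hij
    have h3 : Pf (ψ i Z / g (ψ i Z)) i = Pf (ψ j Z / g (ψ j Z)) j := h2
    rw [h1'] at h3
    exact Subtype.ext ((Pf _).injective h3)
  refine ⟨Equiv.ofBijective F (Finite.injective_iff_bijective.1 hinj), fun i => ⟨?_, ?_⟩⟩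
  · exact hG.val_near hc hCP hP hH _ _ (hlt (F i)) (hlt i)
  · intro ψ₁ ψ₂ h₁ h₂
    rw [h₁.unique (hψ i), h₂.unique (hψ (F i))]
    refine ext_z4 ((g : A →ₐ[k] A).comp (ψ i : A →ₐ[k] A)) (ψ (F i) : A →ₐ[k] A) ?_ ?_
    · intro x hx
      show g (ψ i x) = ψ (F i) x
      rw [hK i x hx, hK (F i) x hx, hg x hx]
    · exact (hFZ i).symm

/-- the values of `U` which are not in the field with `p ^ n` elements, or are in the prime field,
or infinite -/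
theorem GDJ.locB_H [IsAlgClosed Ω] [IsAlgClosed H] [IsAlgClosed A]
    (hc : CfJ A H K₀ Z p e n v a U t) (hCP : CP A H K₀ t)
    (hG : GDJ A H K₀ Z p e n v a U t A₁ A₂ T s ξ f)
    (hP : Plc A V r) (hH : ∀ x ∈ H, x ∈ V)
    (hb : ∀ c : A, c ^ p ≠ c → c ^ (p ^ n) = c → ¬ V.valuation (U - c) < 1) :
    LocB A (GoodW K₀) (KZ K₀ Z) ξ (fun i => T i - t) V r := by
  refine ⟨K₀, Or.inr rfl, hc.al, ?_⟩
  by_cases ha : a ∉ V
  · intro g hg
    exact hG.perm_of_inertia hc hCP hP hH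
      (fun ζ h3 => hc.exists_inf hP hH ha (ζ : Ω) (congrArg (fun x : A => (x : Ω)) h3)) g hg
  rw [not_not] at ha
  rcases lt_or_eq_of_le ((V.valuation_le_one_iff a).2 ha) with h1 | h1
  · intro g hg
    exact hG.perm_of_inertia hc hCP hP hH
      (fun ζ h3 => hc.exists_zero hP hH h1 (ζ : Ω) (congrArg (fun x : A => (x : Ω)) h3)) g hg
  have ht := hCP.t_mem hP hH
  have haV : a ^ e ∈ V := pow_mem ha e
  have hp2 := hc.pp.two_le
  -- `U` is in `V`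
  have hUV : U ∈ V := by
    by_contra h
    rw [← V.valuation_le_one_iff, not_le] at h
    have h2 : V.valuation (U ^ p) ≤ V.valuation U := by
      have h3 : U ^ p = U + a ^ e := by
        rw [← hc.eqU]
        ring
      rw [h3]
      exact (V.valuation.map_add _ _).trans
        (max_le le_rfl (((V.valuation_le_one_iff _).2 haV).trans h.le))
    rw [map_pow] at h2
    exact absurd h2 (not_le.2 (lt_self_pow₀ h (by omega)))
  have hemp : IsEmpty {i : Fin m // (∀ x, ξ i x ∈ V) ∧ V.valuation (T i - t) ≠ 1} := by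
    refine ⟨fun i => ?_⟩
    have hlt : V.valuation (T i - t) < 1 := (hG.idx_iff hc hCP hP hH i).1 i.2
    have h2 := hG.res_y hc hP hH ht hUV i hlt
    have h3 : V.valuation (U - r ⟨U, hUV⟩) < 1 :=
      (hP.res.eq_of_sub hP.mem hUV (hP.mem _ (hP.res.mem _))).1
        (hP.res.fix _ _ (hP.res.mem _)).symm
    refine hb ⟨r ⟨U, hUV⟩, hP.res.mem _⟩ ?_ (Subtype.ext h2) h3
    intro h0
    have h4 : r ⟨U, hUV⟩ ^ p = r ⟨U, hUV⟩ := congrArg (fun x : A => (x : Ω)) h0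
    have h5 : r ⟨U ^ p - U, sub_mem (pow_mem hUV p) hUV⟩ = 0 := by
      have h6 : r ⟨U ^ p - U, sub_mem (pow_mem hUV p) hUV⟩ = r ⟨U, hUV⟩ ^ p - r ⟨U, hUV⟩ := by
        rw [← map_pow, ← map_sub]
        rfl
      rw [h6, h4, sub_self]
    rw [hP.res.zero_iff hP.mem] at h5
    change V.valuation (U ^ p - U) < 1 at h5
    rw [hc.eqU, map_pow, h1, one_pow] at h5
    exact lt_irrefl _ h5
  exact fun g _ => ⟨1, fun i => hemp.elim i⟩

end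

end Pool.Agent.FRJ
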