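import Pool.Agent.FRJ.J6c
import Pool.Agent.FRJ.J10

/-!
# Block G
-/

set_option autoImplicit false

namespace Pool.Agent.FRJ

open Polynomial Pool.Agent.TBR Pool.Agent.TUQ Pool.Agent.WLD Pool.Agent.FRB

universe u

/-- block G: the geometry of the embeddings -/
theorem blockGJ (k Ω : Type u) [Field k] [Field Ω] [Algebra k Ω] : BlockGJ k Ω := by
  intro hΩ A H hA hH K₀ Z p e n v a U t hc hNU
  obtain ⟨t', hc', hCP⟩ := hc.exists_coord
  have hUH := hc'.UH hNU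
  obtain ⟨A₁, A₂, m, T, s, ξ, f, hG⟩ := hc'.exists_GD hUH
  refine ⟨m, ξ, fun i => T i - t', fun i => sub_ne_zero.2 (hG.Tt i), fun V r hP => ⟨?_, ?_⟩⟩
  · intro c hc0 hcq hy
    have halg : IsAlgebraic k (c : Ω) := by
      have h1 : 1 < p ^ n := Nat.one_lt_pow hc'.n0.ne' hc'.pp.one_lt
      refine ⟨X ^ (p ^ n) - X, ?_, ?_⟩
      · exact FiniteField.X_pow_card_sub_X_ne_zero k h1
      · rw [map_sub, map_pow, aeval_X, sub_eq_zero]
        exact congrArg Subtype.val hcq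
    have hHV := hc'.H_mem hNU hP (c : Ω) halg (fun h => hc0 (Subtype.ext h)) hy
    refine ⟨fun i hi hi' => ?_, hG.val_prod hc' hCP hP hHV c hcq hy⟩
    have h1 := (hG.idx_iff hc' hCP hP hHV i).1 ⟨hi, hi'⟩
    have ht := hCP.t_mem hP hHV
    exact ⟨h1, fun ψ hψ => ⟨fun x hx => hG.psi_K₀ hc' hP hHV ht i h1 ψ hψ x hx,
      hG.psi_c hc' hP hHV ht c hc0 hcq hy i h1 ψ hψ⟩⟩
  · intro hb
    by_cases hHV : ∀ x ∈ H, x ∈ V
    · exact hG.locB_H hc' hCP hP hHV hb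
    · push Not at hHV
      exact locB_of_notMem hc' hNU hG hP hHV

end Pool.Agent.FRJ
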